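import Mathlib
import Pool.Agent.SWL41.Wfc

/-!
# The levels with at most three rails
-/

set_option autoImplicit false

namespace Pool.Agent.SWC93

open Pool.Agent.SWL57

/-- The list of the levels. -/
def wl : List Wl := [
  ⟨1, 1, .lf 1⟩,
  ⟨2, 1, .lf 0xc900000001⟩,
  ⟨1, 1, .lf 1⟩,
  ⟨3, 2, .nd (.lf 0xc900010001) (.lf 0xca00010001)⟩,
  ⟨2, 1, .lf 0x1f400010001⟩,
  ⟨2, 1, .lf 65537⟩,
  ⟨1, 1, .lf 131073⟩,
  ⟨3, 3, .nd (.nd (.lf 0xc900040001) (.lf 0xd400040001)) (.lf 0xca00040001)⟩,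
  ⟨3, 3, .nd (.nd (.lf 0xc900050001) (.lf 0x6500030002)) (.lf 0xca00050001)⟩,
  ⟨2, 2, .nd (.lf 262145) (.lf 0x6500040001)⟩,
  ⟨2, 2, .nd (.lf 327681) (.lf 0x1f400040001)⟩,
  ⟨1, 2, .nd (.lf 393217) (.lf 0x12c000a0002)⟩,
  ⟨3, 6, .nd (.nd (.nd (.lf 0xc900090001) (.lf 0xd400090001)) (.lf 0xca00090001)) (.nd (.nd (.lf 0xc900090002) (.lf 0xd400090002)) (.lf 0xca00090002))⟩,
  ⟨3, 9, .nd (.nd (.nd (.nd (.lf 0xc9000a0001) (.lf 0x1f500070003)) (.lf 0xd4000a0002)) (.nd (.lf 0xca000a0001) (.lf 0x1f400070001))) (.nd (.nd (.lf 0xc9000a0002) (.lf 524291)) (.nd (.lf 0xca000a0002) (.lf 0x1f400070002)))⟩,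
  ⟨2, 4, .nd (.nd (.lf 589825) (.lf 0x6500090002)) (.nd (.lf 589826) (.lf 0x1f4000a0002))⟩,
  ⟨2, 4, .nd (.nd (.lf 655361) (.lf 0x65000a0002)) (.nd (.lf 655362) (.lf 0x1f400090002))⟩,
  ⟨1, 3, .nd (.nd (.lf 720897) (.lf 0x12c000f0004)) (.lf 720898)⟩,
  ⟨3, 15, .nd (.nd (.nd (.nd (.lf 0xc9000e0001) (.lf 0xd4000e0001)) (.nd (.lf 0xca000e0001) (.lf 0x1f4000d0002))) (.nd (.nd (.lf 0xc9000e0003) (.lf 0xd4000e0003)) (.nd (.lf 0xca000e0003) (.lf 0x1f4000d0007)))) (.nd (.nd (.nd (.lf 0xc9000e0002) (.lf 0xd4000e0002)) (.nd (.lf 0xca000e0002) (.lf 0x1f4000d0004))) (.nd (.nd (.lf 0xc9000e0004) (.lf 0xd4000e0004)) (.lf 0xca000e0004)))⟩,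
  ⟨3, 18, .nd (.nd (.nd (.nd (.nd (.lf 0xc9000f0001) (.lf 0x65000d0004)) (.lf 0xd4000f0004)) (.nd (.lf 0xca000f0001) (.lf 851977))) (.nd (.nd (.lf 0xc9000f0003) (.lf 851975)) (.nd (.lf 0xca000f0003) (.lf 0x1f4000c0004)))) (.nd (.nd (.nd (.nd (.lf 0xc9000f0002) (.lf 0x65000d0007)) (.lf 851974)) (.nd (.lf 0xca000f0002) (.lf 0x1f4000c0002))) (.nd (.nd (.lf 0xc9000f0004) (.lf 851976)) (.nd (.lf 0xca000f0004) (.lf 0x1f5000c0006))))⟩,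
  ⟨2, 8, .nd (.nd (.nd (.lf 917505) (.lf 0x65000e0003)) (.nd (.lf 917507) (.lf 0x1f4000f0003))) (.nd (.nd (.lf 917506) (.lf 0x65000e0004)) (.nd (.lf 917508) (.lf 0x1f4000f0004)))⟩,
  ⟨2, 6, .nd (.nd (.nd (.lf 983041) (.lf 0x1f4000e0003)) (.lf 983044)) (.nd (.nd (.lf 983042) (.lf 0x1f4000e0004)) (.lf 0x65000f0004))⟩,
  ⟨1, 5, .nd (.nd (.nd (.lf 0x100001) (.lf 0x12c00140006)) (.lf 0x100003)) (.nd (.lf 0x100002) (.lf 0x12c00140005))⟩,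
  ⟨3, 31, .nd (.nd (.nd (.nd (.nd (.lf 0xc900130001) (.lf 0xd400130001)) (.nd (.lf 0xca00130001) (.lf 0x11000d))) (.nd (.nd (.lf 0xc900130005) (.lf 0xd400130005)) (.nd (.lf 0xca00130005) (.lf 0x1f40012000e)))) (.nd (.nd (.nd (.lf 0xc900130003) (.lf 0xd400130003)) (.nd (.lf 0xca00130003) (.lf 0x1f400120004))) (.nd (.nd (.lf 0xc900130007) (.lf 0xd400130007)) (.nd (.lf 0xca00130007) (.lf 0x1f500120010))))) (.nd (.nd (.nd (.nd (.lf 0xc900130002) (.lf 0xd400130002)) (.nd (.lf 0xca00130002) (.lf 0x11000f))) (.nd (.nd (.lf 0xc900130006) (.lf 0xd400130006)) (.nd (.lf 0xca00130006) (.lf 0x1f40012000f)))) (.nd (.nd (.nd (.lf 0xc900130004) (.lf 0xd400130004)) (.nd (.lf 0xca00130004) (.lf 0x1f400120008))) (.nd (.nd (.lf 0xc900130008) (.lf 0xd400130008)) (.lf 0xca00130008))))⟩,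
  ⟨3, 37, .nd (.nd (.nd (.nd (.nd (.nd (.lf 0xc900140001) (.lf 0x1f50011000c)) (.lf 0x12000b)) (.nd (.lf 0xca00140003) (.lf 0x1f400110003))) (.nd (.nd (.nd (.lf 0xc900140005) (.lf 0x650012000e)) (.lf 0x12000f)) (.nd (.lf 0xd400140003) (.lf 0x1f40011000d)))) (.nd (.nd (.nd (.nd (.lf 0xc900140003) (.lf 0x1f50011000f)) (.lf 0x12000d)) (.nd (.lf 0xca00140005) (.lf 0x1f400110007))) (.nd (.nd (.lf 0xca00140001) (.lf 0x120011)) (.nd (.lf 0xd400140006) (.lf 0x1f40011000f))))) (.nd (.nd (.nd (.nd (.nd (.lf 0xc900140002) (.lf 0x1f50011000d)) (.lf 0x12000c)) (.nd (.lf 0xca00140004) (.lf 0x1f400110004))) (.nd (.nd (.lf 0xc900140006) (.lf 0x120010)) (.nd (.lf 0xd400140005) (.lf 0x1f40011000e)))) (.nd (.nd (.nd (.nd (.lf 0xc900140004) (.lf 0x6500120008)) (.lf 0x12000e)) (.nd (.lf 0xca00140006) (.lf 0x1f400110008))) (.nd (.nd (.lf 0xca00140002) (.lf 0x120012))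 (.nd (.lf 0x12000a) (.lf 0x1f50011000b)))))⟩,
  ⟨2, 14, .nd (.nd (.nd (.nd (.lf 0x130001) (.lf 0x6500130006)) (.nd (.lf 0x130005) (.lf 0x1f400140005))) (.nd (.nd (.lf 0x130003) (.lf 0x6500130008)) (.lf 0x130008))) (.nd (.nd (.nd (.lf 0x130002) (.lf 0x6500130007)) (.nd (.lf 0x130006) (.lf 0x1f400140006))) (.nd (.nd (.lf 0x130004) (.lf 0x1f400140004)) (.lf 0x6500130005)))⟩,
  ⟨2, 11, .nd (.nd (.nd (.nd (.lf 0x140001) (.lf 0x1f400130005)) (.lf 0x140005)) (.nd (.nd (.lf 0x140003) (.lf 0x1f400130007)) (.lf 0x6500140005))) (.nd (.nd (.nd (.lf 0x140002) (.lf 0x1f400130006)) (.lf 0x140006)) (.nd (.lf 0x140004) (.lf 0x6500140006)))⟩]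

/-- The levels. -/
noncomputable def W : ℕ → Wl := SWL41.gl wl

theorem wfK : SWL41.chn (SWL41.gl wl) 0x126ca4d949b293652651 wl.length = true := by decide +kernel

theorem wfL : SWL41.chl 0x126ca4d949b293652651 wl 0 = true := by decide +kernel

/-- The levels are well formed. -/
theorem hW : Wf W := SWL41.wf_gl wfK (SWL41.chl_all wfL)

theorem h0 : gt (W 0).b 0 ≠ 0 := by decide +kernel

end Pool.Agent.SWC93
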