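import Mathlib
import Pool.Agent.SWL57.Bat
import Pool.Agent.SWC93.W
import Pool.Agent.SWC93.D0

/-!
# Checks of the levels 1 to 25
-/

set_option autoImplicit false

namespace Pool.Agent.SWC93

open Pool.Agent.SWL57

theorem o1 : okl W 1 2 bl1 = true := by decide +kernel

theorem b1 : chBT W L1 1 2 bl1 S1 = true := by decide +kernel

theorem t0 : chT S1 1 (W 1).d (W 0).d 2 1 f0.T m0 0 1 = true := by decide +kernel

theorem o2 : okl W 2 3 bl2 = true := by decide +kernel

theorem b2 : chBT W L2 2 3 bl2 S2 = true := by decide +kernel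

theorem t12 : chT S2 2 (W 2).d (W 1).d 3 1 f12.T m12 0 1 = true := by decide +kernel

theorem o3 : okl W 3 5 bl3 = true := by decide +kernel

theorem b3 : chBT W L3 3 5 bl3 S3 = true := by decide +kernel

theorem t7 : chT S3 2 (W 3).d (W 1).d 5 1 f7.T m7 0 1 = true := by decide +kernel

theorem t8 : chT S3 3 (W 3).d (W 1).d 5 1 f8.T m8 0 1 = true := by decide +kernel

theorem t9 : chT S3 4 (W 3).d (W 1).d 5 1 f9.T m9 0 1 = true := by decide +kernel

theorem o4 : okl W 4 3 bl4 = true := by decide +kernel

theorem b4 : chBT W L4 4 3 bl4 S4 = true := by decide +kernel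

theorem t10 : chT S4 1 (W 4).d (W 1).d 3 1 f10.T m10 0 1 = true := by decide +kernel

theorem t11 : chT S4 2 (W 4).d (W 1).d 3 1 f11.T m11 0 1 = true := by decide +kernel

theorem o5 : okl W 5 6 bl5 = true := by decide +kernel

theorem b5 : chBT W L5 5 6 bl5 S5 = true := by decide +kernel

theorem t15 : chT S5 1 (W 5).d (W 1).d 6 1 f15.T m15 0 1 = true := by decide +kernel

theorem t14 : chT S5 2 (W 5).d (W 1).d 6 1 f14.T m14 0 1 = true := by decide +kernel

theorem t1 : chT S5 3 (W 5).d (W 2).d 6 1 f1.T m1 0 1 = true := by decide +kernel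

theorem t87 : chT S5 4 (W 5).d (W 3).d 6 1 f87.T m87 0 1 = true := by decide +kernel

theorem o6 : okl W 6 3 bl6 = true := by decide +kernel

theorem b6 : chBT W L6 6 3 bl6 S6 = true := by decide +kernel

theorem t29 : chT S6 2 (W 6).d (W 5).d 3 1 f29.T m29 0 1 = true := by decide +kernel

theorem o7 : okl W 7 12 bl7 = true := by decide +kernel

theorem b7 : chBT W L7 7 12 bl7 S7 = true := by decide +kernel

theorem t16 : chT S7 3 (W 7).d (W 4).d 12 1 f16.T m16 0 1 = true := by decide +kernel

theorem t17 : chT S7 4 (W 7).d (W 4).d 12 1 f17.T m17 0 1 = true := by decide +kernel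

theorem t18 : chT S7 5 (W 7).d (W 4).d 12 1 f18.T m18 0 1 = true := by decide +kernel

theorem t84 : chT S7 6 (W 7).d (W 3).d 12 1 f84.T m84 0 1 = true := by decide +kernel

theorem t85 : chT S7 8 (W 7).d (W 3).d 12 1 f85.T m85 0 1 = true := by decide +kernel

theorem t86 : chT S7 10 (W 7).d (W 3).d 12 1 f86.T m86 0 1 = true := by decide +kernel

theorem o8 : okl W 8 14 bl8 = true := by decide +kernel

theorem b8 : chBT W L8 8 14 bl8 S8 = true := by decide +kernel

theorem t24 : chT S8 3 (W 8).d (W 5).d 14 1 f24.T m24 0 1 = true := by decide +kernel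

theorem t25 : chT S8 4 (W 8).d (W 5).d 14 1 f25.T m25 0 1 = true := by decide +kernel

theorem t26 : chT S8 5 (W 8).d (W 5).d 14 1 f26.T m26 0 1 = true := by decide +kernel

theorem t93 : chT S8 6 (W 8).d (W 3).d 14 1 f93.T m93 0 1 = true := by decide +kernel

theorem t90 : chT S8 8 (W 8).d (W 3).d 14 1 f90.T m90 0 1 = true := by decide +kernel

theorem t91 : chT S8 10 (W 8).d (W 3).d 14 1 f91.T m91 0 1 = true := by decide +kernel

theorem t92 : chT S8 12 (W 8).d (W 3).d 14 1 f92.T m92 0 1 = true := by decide +kernel

theorem o9 : okl W 9 12 bl9 = true := by decide +kernel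

theorem b9 : chBT W L9 9 12 bl9 S9 = true := by decide +kernel

theorem t23 : chT S9 2 (W 9).d (W 4).d 12 1 f23.T m23 0 1 = true := by decide +kernel

theorem t22 : chT S9 3 (W 9).d (W 4).d 12 1 f22.T m22 0 1 = true := by decide +kernel

theorem t27 : chT S9 4 (W 9).d (W 5).d 12 1 f27.T m27 0 1 = true := by decide +kernel

theorem t28 : chT S9 5 (W 9).d (W 5).d 12 1 f28.T m28 0 1 = true := by decide +kernel

theorem t98 : chT S9 6 (W 9).d (W 7).d 12 1 f98.T m98 0 1 = true := by decide +kernel

theorem t97 : chT S9 9 (W 9).d (W 7).d 12 1 f97.T m97 0 1 = true := by decide +kernel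

theorem o10 : okl W 10 10 bl10 = true := by decide +kernel

theorem b10 : chBT W L10 10 10 bl10 S10 = true := by decide +kernel

theorem t32 : chT S10 2 (W 10).d (W 5).d 10 1 f32.T m32 0 1 = true := by decide +kernel

theorem t31 : chT S10 3 (W 10).d (W 5).d 10 1 f31.T m31 0 1 = true := by decide +kernel

theorem t19 : chT S10 4 (W 10).d (W 4).d 10 1 f19.T m19 0 1 = true := by decide +kernel

theorem t20 : chT S10 5 (W 10).d (W 4).d 10 1 f20.T m20 0 1 = true := by decide +kernel

theorem t2 : chT S10 6 (W 10).d (W 6).d 10 1 f2.T m2 0 1 = true := by decide +kernel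

theorem t108 : chT S10 7 (W 10).d (W 8).d 10 1 f108.T m108 0 1 = true := by decide +kernel

theorem o11 : okl W 11 5 bl11 = true := by decide +kernel

theorem b11 : chBT W L11 11 5 bl11 S11 = true := by decide +kernel

theorem t46 : chT S11 3 (W 11).d (W 10).d 5 1 f46.T m46 0 1 = true := by decide +kernel

theorem o12 : okl W 12 33 bl12 = true := by decide +kernel

theorem b12 : chBT W L12 12 33 bl12 S12 = true := by decide +kernel

theorem t33 : chT S12 6 (W 12).d (W 9).d 33 3 f33.T m33 0 1 = true := by decide +kernel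

theorem t34 : chT S12 8 (W 12).d (W 9).d 33 3 f34.T m34 0 1 = true := by decide +kernel

theorem t35 : chT S12 10 (W 12).d (W 9).d 33 3 f35.T m35 0 1 = true := by decide +kernel

theorem t104 : chT S12 12 (W 12).d (W 7).d 33 3 f104.T m104 0 1 = true := by decide +kernel

theorem t105 : chT S12 15 (W 12).d (W 8).d 33 3 f105.T m105 0 1 = true := by decide +kernel

theorem t106 : chT S12 18 (W 12).d (W 8).d 33 3 f106.T m106 0 1 = true := by decide +kernel

theorem t107 : chT S12 21 (W 12).d (W 8).d 33 3 f107.T m107 0 1 = true := by decide +kernel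

theorem t101 : chT S12 24 (W 12).d (W 7).d 33 3 f101.T m101 0 1 = true := by decide +kernel

theorem t102 : chT S12 27 (W 12).d (W 7).d 33 3 f102.T m102 0 1 = true := by decide +kernel

theorem t103 : chT S12 30 (W 12).d (W 7).d 33 3 f103.T m103 0 1 = true := by decide +kernel

theorem o13 : okl W 13 36 bl13 = true := by decide +kernel

theorem b13 : chBT W L13 13 36 bl13 S13 = true := by decide +kernel

theorem t41 : chT S13 9 (W 13).d (W 10).d 36 1 f41.T m41 0 1 = true := by decide +kernel

theorem t42 : chT S13 11 (W 13).d (W 10).d 36 1 f42.T m42 0 1 = true := by decide +kernel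

theorem t43 : chT S13 13 (W 13).d (W 10).d 36 1 f43.T m43 0 1 = true := by decide +kernel

theorem t114 : chT S13 15 (W 13).d (W 8).d 36 1 f114.T m114 0 1 = true := by decide +kernel

theorem t94 : chT S13 18 (W 13).d (W 7).d 36 1 f94.T m94 0 1 = true := by decide +kernel

theorem t95 : chT S13 21 (W 13).d (W 7).d 36 1 f95.T m95 0 1 = true := by decide +kernel

theorem t96 : chT S13 24 (W 13).d (W 7).d 36 1 f96.T m96 0 1 = true := by decide +kernel

theorem t111 : chT S13 27 (W 13).d (W 8).d 36 1 f111.T m111 0 1 = true := by decide +kernel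

theorem t112 : chT S13 30 (W 13).d (W 8).d 36 1 f112.T m112 0 1 = true := by decide +kernel

theorem t113 : chT S13 33 (W 13).d (W 8).d 36 1 f113.T m113 0 1 = true := by decide +kernel

theorem o14 : okl W 14 24 bl14 = true := by decide +kernel

theorem b14 : chBT W L14 14 24 bl14 S14 = true := by decide +kernel

theorem t40 : chT S14 4 (W 14).d (W 9).d 24 1 f40.T m40 0 1 = true := by decide +kernel

theorem t39 : chT S14 6 (W 14).d (W 9).d 24 1 f39.T m39 0 1 = true := by decide +kernel

theorem t44 : chT S14 8 (W 14).d (W 10).d 24 1 f44.T m44 0 1 = true := by decide +kernel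

theorem t45 : chT S14 10 (W 14).d (W 10).d 24 1 f45.T m45 0 1 = true := by decide +kernel

theorem t119 : chT S14 12 (W 14).d (W 12).d 24 1 f119.T m119 0 1 = true := by decide +kernel

theorem t118 : chT S14 18 (W 14).d (W 12).d 24 1 f118.T m118 0 1 = true := by decide +kernel

theorem o15 : okl W 15 32 bl15 = true := by decide +kernel

theorem b15 : chBT W L15 15 32 bl15 S15 = true := by decide +kernel

theorem t49 : chT S15 4 (W 15).d (W 10).d 32 1 f49.T m49 0 1 = true := by decide +kernel

theorem t48 : chT S15 6 (W 15).d (W 10).d 32 1 f48.T m48 0 1 = true := by decide +kernel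

theorem t36 : chT S15 8 (W 15).d (W 9).d 32 1 f36.T m36 0 1 = true := by decide +kernel

theorem t37 : chT S15 10 (W 15).d (W 9).d 32 1 f37.T m37 0 1 = true := by decide +kernel

theorem t3 : chT S15 12 (W 15).d (W 11).d 32 1 f3.T m3 0 1 = true := by decide +kernel

theorem t130 : chT S15 14 (W 15).d (W 13).d 32 1 f130.T m130 0 1 = true := by decide +kernel

theorem t129 : chT S15 23 (W 15).d (W 13).d 32 1 f129.T m129 0 1 = true := by decide +kernel

theorem o16 : okl W 16 9 bl16 = true := by decide +kernel

theorem b16 : chBT W L16 16 9 bl16 S16 = true := by decide +kernel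

theorem t63 : chT S16 5 (W 16).d (W 15).d 9 1 f63.T m63 0 1 = true := by decide +kernel

theorem o17 : okl W 17 78 bl17 = true := by decide +kernel

theorem b17 : chBT W L17 17 78 bl17 S17 = true := by decide +kernel

theorem t50 : chT S17 15 (W 17).d (W 14).d 78 1 f50.T m50 0 1 = true := by decide +kernel

theorem t51 : chT S17 19 (W 17).d (W 14).d 78 1 f51.T m51 0 1 = true := by decide +kernel

theorem t52 : chT S17 23 (W 17).d (W 14).d 78 1 f52.T m52 0 1 = true := by decide +kernel

theorem t125 : chT S17 27 (W 17).d (W 12).d 78 1 f125.T m125 0 1 = true := by decide +kernel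

theorem t126 : chT S17 33 (W 17).d (W 13).d 78 1 f126.T m126 0 1 = true := by decide +kernel

theorem t127 : chT S17 42 (W 17).d (W 13).d 78 1 f127.T m127 0 1 = true := by decide +kernel

theorem t128 : chT S17 51 (W 17).d (W 13).d 78 1 f128.T m128 0 1 = true := by decide +kernel

theorem t122 : chT S17 60 (W 17).d (W 12).d 78 1 f122.T m122 0 1 = true := by decide +kernel

theorem t123 : chT S17 66 (W 17).d (W 12).d 78 1 f123.T m123 0 1 = true := by decide +kernel

theorem t124 : chT S17 72 (W 17).d (W 12).d 78 1 f124.T m124 0 1 = true := by decide +kernel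

theorem o18 : okl W 18 84 bl18 = true := by decide +kernel

theorem b18 : chBT W L18 18 84 bl18 S18 = true := by decide +kernel

theorem t58 : chT S18 18 (W 18).d (W 15).d 84 1 f58.T m58 0 1 = true := by decide +kernel

theorem t59 : chT S18 22 (W 18).d (W 15).d 84 1 f59.T m59 0 1 = true := by decide +kernel

theorem t60 : chT S18 26 (W 18).d (W 15).d 84 1 f60.T m60 0 1 = true := by decide +kernel

theorem t136 : chT S18 30 (W 18).d (W 13).d 84 1 f136.T m136 0 1 = true := by decide +kernel

theorem t115 : chT S18 39 (W 18).d (W 12).d 84 1 f115.T m115 0 1 = true := by decide +kernel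

theorem t116 : chT S18 45 (W 18).d (W 12).d 84 1 f116.T m116 0 1 = true := by decide +kernel

theorem t117 : chT S18 51 (W 18).d (W 12).d 84 1 f117.T m117 0 1 = true := by decide +kernel

theorem t133 : chT S18 57 (W 18).d (W 13).d 84 1 f133.T m133 0 1 = true := by decide +kernel

theorem t134 : chT S18 66 (W 18).d (W 13).d 84 1 f134.T m134 0 1 = true := by decide +kernel

theorem t135 : chT S18 75 (W 18).d (W 13).d 84 1 f135.T m135 0 1 = true := by decide +kernel

theorem o19 : okl W 19 54 bl19 = true := by decide +kernel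

theorem b19 : chBT W L19 19 54 bl19 S19 = true := by decide +kernel

theorem t57 : chT S19 8 (W 19).d (W 14).d 54 1 f57.T m57 0 1 = true := by decide +kernel

theorem t56 : chT S19 12 (W 19).d (W 14).d 54 1 f56.T m56 0 1 = true := by decide +kernel

theorem t61 : chT S19 16 (W 19).d (W 15).d 54 1 f61.T m61 0 1 = true := by decide +kernel

theorem t62 : chT S19 20 (W 19).d (W 15).d 54 1 f62.T m62 0 1 = true := by decide +kernel

theorem t141 : chT S19 24 (W 19).d (W 17).d 54 1 f141.T m141 0 1 = true := by decide +kernel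

theorem t140 : chT S19 39 (W 19).d (W 17).d 54 1 f140.T m140 0 1 = true := by decide +kernel

theorem o20 : okl W 20 61 bl20 = true := by decide +kernel

theorem b20 : chBT W L20 20 61 bl20 S20 = true := by decide +kernel

theorem t66 : chT S20 6 (W 20).d (W 15).d 61 1 f66.T m66 0 1 = true := by decide +kernel

theorem t65 : chT S20 10 (W 20).d (W 15).d 61 1 f65.T m65 0 1 = true := by decide +kernel

theorem t53 : chT S20 14 (W 20).d (W 14).d 61 1 f53.T m53 0 1 = true := by decide +kernel

theorem t54 : chT S20 18 (W 20).d (W 14).d 61 1 f54.T m54 0 1 = true := by decide +kernel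

theorem t4 : chT S20 22 (W 20).d (W 16).d 61 1 f4.T m4 0 1 = true := by decide +kernel

theorem t152 : chT S20 25 (W 20).d (W 18).d 61 1 f152.T m152 0 1 = true := by decide +kernel

theorem t151 : chT S20 43 (W 20).d (W 18).d 61 1 f151.T m151 0 1 = true := by decide +kernel

theorem o21 : okl W 21 14 bl21 = true := by decide +kernel

theorem b21 : chBT W L21 21 14 bl21 S21 = true := by decide +kernel

theorem t5 : chT S21 5 (W 21).d (W 16).d 14 1 f5.T m5 0 1 = true := by decide +kernel

theorem t80 : chT S21 8 (W 21).d (W 20).d 14 1 f80.T m80 0 1 = true := by decide +kernel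

theorem o22 : okl W 22 169 bl22 = true := by decide +kernel

theorem b22 : chBT W L22 22 169 bl22 S22 = true := by decide +kernel

theorem t67 : chT S22 31 (W 22).d (W 19).d 169 9 f67.T m67 0 1 = true := by decide +kernel

theorem t68 : chT S22 39 (W 22).d (W 19).d 169 9 f68.T m68 0 1 = true := by decide +kernel

theorem t69 : chT S22 47 (W 22).d (W 19).d 169 9 f69.T m69 0 1 = true := by decide +kernel

theorem t147 : chT S22 55 (W 22).d (W 17).d 169 9 f147.T m147 0 1 = true := by decide +kernel

theorem t148 : chT S22 70 (W 22).d (W 18).d 169 9 f148.T m148 0 1 = true := by decide +kernel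

theorem t149 : chT S22 88 (W 22).d (W 18).d 169 9 f149.T m149 0 1 = true := by decide +kernel

theorem t150 : chT S22 106 (W 22).d (W 18).d 169 9 f150.T m150 0 1 = true := by decide +kernel

theorem t144 : chT S22 124 (W 22).d (W 17).d 169 9 f144.T m144 0 1 = true := by decide +kernel

theorem t145 : chT S22 139 (W 22).d (W 17).d 169 9 f145.T m145 0 1 = true := by decide +kernel

theorem t146 : chT S22 154 (W 22).d (W 17).d 169 9 f146.T m146 0 1 = true := by decide +kernel

theorem o23 : okl W 23 172 bl23 = true := by decide +kernel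

theorem b23 : chBT W L23 23 172 bl23 S23 = true := by decide +kernel

theorem t75 : chT S23 37 (W 23).d (W 20).d 172 1 f75.T m75 0 1 = true := by decide +kernel

theorem t76 : chT S23 43 (W 23).d (W 20).d 172 1 f76.T m76 0 1 = true := by decide +kernel

theorem t77 : chT S23 49 (W 23).d (W 20).d 172 1 f77.T m77 0 1 = true := by decide +kernel

theorem t158 : chT S23 55 (W 23).d (W 18).d 172 1 f158.T m158 0 1 = true := by decide +kernel

theorem t137 : chT S23 73 (W 23).d (W 17).d 172 1 f137.T m137 0 1 = true := by decide +kernel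

theorem t138 : chT S23 88 (W 23).d (W 17).d 172 1 f138.T m138 0 1 = true := by decide +kernel

theorem t139 : chT S23 103 (W 23).d (W 17).d 172 1 f139.T m139 0 1 = true := by decide +kernel

theorem t155 : chT S23 118 (W 23).d (W 18).d 172 1 f155.T m155 0 1 = true := by decide +kernel

theorem t156 : chT S23 136 (W 23).d (W 18).d 172 1 f156.T m156 0 1 = true := by decide +kernel

theorem t157 : chT S23 154 (W 23).d (W 18).d 172 1 f157.T m157 0 1 = true := by decide +kernel

theorem o24 : okl W 24 104 bl24 = true := by decide +kernel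

theorem b24 : chBT W L24 24 104 bl24 S24 = true := by decide +kernel

theorem t74 : chT S24 14 (W 24).d (W 19).d 104 1 f74.T m74 0 1 = true := by decide +kernel

theorem t73 : chT S24 22 (W 24).d (W 19).d 104 1 f73.T m73 0 1 = true := by decide +kernel

theorem t78 : chT S24 30 (W 24).d (W 20).d 104 1 f78.T m78 0 1 = true := by decide +kernel

theorem t79 : chT S24 36 (W 24).d (W 20).d 104 1 f79.T m79 0 1 = true := by decide +kernel

theorem t160 : chT S24 42 (W 24).d (W 22).d 104 1 f160.T m160 0 1 = true := by decide +kernel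

theorem t159 : chT S24 73 (W 24).d (W 22).d 104 1 f159.T m159 0 1 = true := by decide +kernel

theorem o25 : okl W 25 118 bl25 = true := by decide +kernel

theorem b25 : chBT W L25 25 118 bl25 S25 = true := by decide +kernel

theorem t83 : chT S25 11 (W 25).d (W 20).d 118 1 f83.T m83 0 1 = true := by decide +kernel

theorem t82 : chT S25 17 (W 25).d (W 20).d 118 1 f82.T m82 0 1 = true := by decide +kernel

theorem t70 : chT S25 23 (W 25).d (W 19).d 118 1 f70.T m70 0 1 = true := by decide +kernel

theorem t71 : chT S25 31 (W 25).d (W 19).d 118 1 f71.T m71 0 1 = true := by decide +kernel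

theorem t6 : chT S25 39 (W 25).d (W 21).d 118 1 f6.T m6 0 1 = true := by decide +kernel

theorem t164 : chT S25 44 (W 25).d (W 23).d 118 1 f164.T m164 0 1 = true := by decide +kernel

theorem t163 : chT S25 81 (W 25).d (W 23).d 118 1 f163.T m163 0 1 = true := by decide +kernel

end Pool.Agent.SWC93
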