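import Mathlib
import Pool.Agent.SWL57.Cmp
import Pool.Agent.SWC93.W
import Pool.Agent.SWC93.F0

/-!
# Checks of the compositions and of the exchanges
-/

set_option autoImplicit false

namespace Pool.Agent.SWC93

open Pool.Agent.SWL57

theorem x13 : ckX rels W [[f0]] 1 400 [(262, 0)] f13.T = true := by decide +kernel

theorem x21 : ckX rels W [[f231]] 4 400 [(260, 0)] f21.T = true := by decide +kernel

theorem x30 : ckX rels W [[f232]] 5 400 [(258, 0)] f30.T = true := by decide +kernel

theorem x38 : ckX rels W [[f235, f236]] 9 400 [(258, 1), (259, 0)] f38.T = true := by decide +kernel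

theorem x47 : ckX rels W [[f234, f237]] 10 400 [(258, 1), (260, 0)] f47.T = true := by decide +kernel

theorem x55 : ckX rels W [[f240, f241, f243]] 14 400 [(258, 1), (259, 0), (260, 2)] f55.T = true := by decide +kernel

theorem x64 : ckX rels W [[f239, f244, f245]] 15 400 [(258, 2), (259, 1), (260, 0)] f64.T = true := by decide +kernel

theorem x72 : ckX rels W [[f248, f249, f251]] 19 400 [(258, 1), (259, 0), (260, 2)] f72.T = true := by decide +kernel

theorem x81 : ckX rels W [[f247, f252, f253]] 20 400 [(258, 2), (259, 1), (260, 0)] f81.T = true := by decide +kernel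

theorem x88 : ckX rels W [[f7, f9]] 3 400 [(265, 0), (267, 1)] f88.T = true := by decide +kernel

theorem x89 : ckX rels W [[f7, f8]] 3 401 [(266, 1), (268, 0)] f89.T = true := by decide +kernel

theorem x99 : ckX rels W [[f16, f17, f18]] 7 400 [(265, 0), (267, 2), (269, 1)] f99.T = true := by decide +kernel

theorem x100 : ckX rels W [[f16, f17, f18]] 7 401 [(266, 1), (268, 0), (270, 2)] f100.T = true := by decide +kernel

theorem x109 : ckX rels W [[f24, f26, f259]] 8 400 [(265, 0), (267, 1), (279, 2)] f109.T = true := by decide +kernel

theorem x110 : ckX rels W [[f24, f25, f262]] 8 401 [(266, 1), (268, 0), (280, 2)] f110.T = true := by decide +kernel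

theorem x120 : ckX rels W [[f33, f34, f35]] 12 400 [(265, 0), (267, 2), (269, 1)] f120.T = true := by decide +kernel

theorem x121 : ckX rels W [[f33, f34, f35]] 12 401 [(266, 1), (268, 0), (270, 2)] f121.T = true := by decide +kernel

theorem x131 : ckX rels W [[f41, f42, f43, f263, f264, f271]] 13 400 [(265, 0), (267, 2), (269, 1), (271, 5), (273, 4), (275, 3)] f131.T = true := by decide +kernel

theorem x132 : ckX rels W [[f41, f42, f43, f266, f267, f274]] 13 401 [(266, 1), (268, 0), (270, 2), (272, 5), (274, 3), (276, 4)] f132.T = true := by decide +kernel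

theorem x142 : ckX rels W [[f50, f51, f52, f282]] 17 400 [(265, 0), (267, 2), (269, 1), (273, 3)] f142.T = true := by decide +kernel

theorem x143 : ckX rels W [[f50, f51, f52, f286]] 17 401 [(266, 1), (268, 0), (270, 2), (274, 3)] f143.T = true := by decide +kernel

theorem x153 : ckX rels W [[f58, f59, f60, f275, f276, f284, f285]] 18 400 [(265, 0), (267, 2), (269, 1), (271, 6), (273, 4), (275, 3), (279, 5)] f153.T = true := by decide +kernel

theorem x154 : ckX rels W [[f58, f59, f60, f278, f279, f289, f290]] 18 401 [(266, 1), (268, 0), (270, 2), (272, 6), (274, 3), (276, 4), (280, 5)] f154.T = true := by decide +kernel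

theorem x161 : ckX rels W [[f67, f68, f69, f294, f300, f301]] 22 400 [(265, 0), (267, 2), (269, 1), (271, 3), (273, 5), (275, 4)] f161.T = true := by decide +kernel

theorem x162 : ckX rels W [[f67, f68, f69, f299, f305]] 22 401 [(266, 1), (268, 0), (270, 2), (272, 3), (274, 4)] f162.T = true := by decide +kernel

theorem x165 : ckX rels W [[f75, f76, f77, f291, f292, f303, f304]] 23 400 [(265, 0), (267, 2), (269, 1), (271, 6), (273, 4), (275, 3), (279, 5)] f165.T = true := by decide +kernel

theorem x166 : ckX rels W [[f75, f76, f77, f295, f296, f308, f309]] 23 401 [(266, 1), (268, 0), (270, 2), (272, 6), (274, 3), (276, 4), (280, 5)] f166.T = true := by decide +kernel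

theorem c167 : ckC W [[f0, f9]] 0 1 f167 = true := by decide +kernel

theorem c168 : ckC W [[f167, f88]] 0 1 f168 = true := by decide +kernel

theorem c169 : ckC W [[f168, f89]] 0 1 f169 = true := by decide +kernel

theorem c170 : ckC W [[f169, f88]] 0 1 f170 = true := by decide +kernel

theorem c171 : ckC W [[f167, f89]] 0 1 f171 = true := by decide +kernel

theorem c172 : ckC W [[f171, f88]] 0 1 f172 = true := by decide +kernel

theorem c173 : ckC W [[f0, f10]] 0 1 f173 = true := by decide +kernel

theorem c174 : ckC W [[f173, f19]] 0 1 f174 = true := by decide +kernel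

theorem c175 : ckC W [[f174, f44]] 0 1 f175 = true := by decide +kernel

theorem c176 : ckC W [[f175, f53]] 0 1 f176 = true := by decide +kernel

theorem c177 : ckC W [[f176, f78]] 0 1 f177 = true := by decide +kernel

theorem c178 : ckC W [[f176, f82]] 0 1 f178 = true := by decide +kernel

theorem c179 : ckC W [[f175, f56]] 0 1 f179 = true := by decide +kernel

theorem c180 : ckC W [[f179, f70]] 0 1 f180 = true := by decide +kernel

theorem c181 : ckC W [[f179, f73]] 0 1 f181 = true := by decide +kernel

theorem c182 : ckC W [[f174, f48]] 0 1 f182 = true := by decide +kernel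

theorem c183 : ckC W [[f182, f61]] 0 1 f183 = true := by decide +kernel

theorem c184 : ckC W [[f183, f70]] 0 1 f184 = true := by decide +kernel

theorem c185 : ckC W [[f183, f73]] 0 1 f185 = true := by decide +kernel

theorem c186 : ckC W [[f173, f22]] 0 1 f186 = true := by decide +kernel

theorem c187 : ckC W [[f186, f36]] 0 1 f187 = true := by decide +kernel

theorem c188 : ckC W [[f187, f61]] 0 1 f188 = true := by decide +kernel

theorem c189 : ckC W [[f188, f70]] 0 1 f189 = true := by decide +kernel

theorem c190 : ckC W [[f188, f73]] 0 1 f190 = true := by decide +kernel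

theorem c191 : ckC W [[f187, f65]] 0 1 f191 = true := by decide +kernel

theorem c192 : ckC W [[f191, f78]] 0 1 f192 = true := by decide +kernel

theorem c193 : ckC W [[f186, f39]] 0 1 f193 = true := by decide +kernel

theorem c194 : ckC W [[f193, f53]] 0 1 f194 = true := by decide +kernel

theorem c195 : ckC W [[f194, f78]] 0 1 f195 = true := by decide +kernel

theorem c196 : ckC W [[f194, f82]] 0 1 f196 = true := by decide +kernel

theorem c197 : ckC W [[f193, f56]] 0 1 f197 = true := by decide +kernel

theorem c198 : ckC W [[f197, f70]] 0 1 f198 = true := by decide +kernel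

theorem c199 : ckC W [[f197, f73]] 0 1 f199 = true := by decide +kernel

theorem c200 : ckC W [[f0, f15]] 0 1 f200 = true := by decide +kernel

theorem c201 : ckC W [[f200, f27]] 0 1 f201 = true := by decide +kernel

theorem c202 : ckC W [[f201, f36]] 0 1 f202 = true := by decide +kernel

theorem c203 : ckC W [[f202, f61]] 0 1 f203 = true := by decide +kernel

theorem c204 : ckC W [[f203, f70]] 0 1 f204 = true := by decide +kernel

theorem c205 : ckC W [[f203, f73]] 0 1 f205 = true := by decide +kernel

theorem c206 : ckC W [[f202, f65]] 0 1 f206 = true := by decide +kernel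

theorem c207 : ckC W [[f206, f78]] 0 1 f207 = true := by decide +kernel

theorem c208 : ckC W [[f201, f39]] 0 1 f208 = true := by decide +kernel

theorem c209 : ckC W [[f208, f53]] 0 1 f209 = true := by decide +kernel

theorem c210 : ckC W [[f209, f78]] 0 1 f210 = true := by decide +kernel

theorem c211 : ckC W [[f209, f82]] 0 1 f211 = true := by decide +kernel

theorem c212 : ckC W [[f208, f56]] 0 1 f212 = true := by decide +kernel

theorem c213 : ckC W [[f212, f70]] 0 1 f213 = true := by decide +kernel

theorem c214 : ckC W [[f212, f73]] 0 1 f214 = true := by decide +kernel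

theorem c215 : ckC W [[f200, f32]] 0 1 f215 = true := by decide +kernel

theorem c216 : ckC W [[f215, f44]] 0 1 f216 = true := by decide +kernel

theorem c217 : ckC W [[f216, f53]] 0 1 f217 = true := by decide +kernel

theorem c218 : ckC W [[f217, f78]] 0 1 f218 = true := by decide +kernel

theorem c219 : ckC W [[f217, f82]] 0 1 f219 = true := by decide +kernel

theorem c220 : ckC W [[f216, f56]] 0 1 f220 = true := by decide +kernel

theorem c221 : ckC W [[f220, f70]] 0 1 f221 = true := by decide +kernel

theorem c222 : ckC W [[f220, f73]] 0 1 f222 = true := by decide +kernel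

theorem c223 : ckC W [[f215, f49]] 0 1 f223 = true := by decide +kernel

theorem c224 : ckC W [[f223, f61]] 0 1 f224 = true := by decide +kernel

theorem c225 : ckC W [[f224, f70]] 0 1 f225 = true := by decide +kernel

theorem c226 : ckC W [[f224, f73]] 0 1 f226 = true := by decide +kernel

theorem c227 : ckC W [[f223, f66]] 0 1 f227 = true := by decide +kernel

theorem c228 : ckC W [[f227, f78]] 0 1 f228 = true := by decide +kernel

theorem c229 : ckC W [[f227, f83]] 0 1 f229 = true := by decide +kernel

theorem c230 : ckC W [[f9, f88]] 0 1 f230 = true := by decide +kernel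

theorem c231 : ckC W [[f13, f11]] 0 1 f231 = true := by decide +kernel

theorem c232 : ckC W [[f13, f15]] 0 1 f232 = true := by decide +kernel

theorem c233 : ckC W [[f18, f99]] 0 1 f233 = true := by decide +kernel

theorem c234 : ckC W [[f21, f20]] 0 1 f234 = true := by decide +kernel

theorem c235 : ckC W [[f21, f22]] 0 1 f235 = true := by decide +kernel

theorem c236 : ckC W [[f21, f23]] 0 1 f236 = true := by decide +kernel

theorem c237 : ckC W [[f30, f32]] 0 1 f237 = true := by decide +kernel

theorem c238 : ckC W [[f35, f120]] 0 1 f238 = true := by decide +kernel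

theorem c239 : ckC W [[f38, f37]] 0 1 f239 = true := by decide +kernel

theorem c240 : ckC W [[f38, f39]] 0 1 f240 = true := by decide +kernel

theorem c241 : ckC W [[f38, f40]] 0 1 f241 = true := by decide +kernel

theorem c242 : ckC W [[f43, f131]] 0 1 f242 = true := by decide +kernel

theorem c243 : ckC W [[f47, f45]] 0 1 f243 = true := by decide +kernel

theorem c244 : ckC W [[f47, f48]] 0 1 f244 = true := by decide +kernel

theorem c245 : ckC W [[f47, f49]] 0 1 f245 = true := by decide +kernel

theorem c246 : ckC W [[f52, f142]] 0 1 f246 = true := by decide +kernel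

theorem c247 : ckC W [[f55, f54]] 0 1 f247 = true := by decide +kernel

theorem c248 : ckC W [[f55, f56]] 0 1 f248 = true := by decide +kernel

theorem c249 : ckC W [[f55, f57]] 0 1 f249 = true := by decide +kernel

theorem c250 : ckC W [[f60, f153]] 0 1 f250 = true := by decide +kernel

theorem c251 : ckC W [[f64, f62]] 0 1 f251 = true := by decide +kernel

theorem c252 : ckC W [[f64, f65]] 0 1 f252 = true := by decide +kernel

theorem c253 : ckC W [[f64, f66]] 0 1 f253 = true := by decide +kernel

theorem c254 : ckC W [[f69, f161]] 0 1 f254 = true := by decide +kernel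

theorem c255 : ckC W [[f72, f69]] 0 1 f255 = true := by decide +kernel

theorem c256 : ckC W [[f77, f165]] 0 1 f256 = true := by decide +kernel

theorem c257 : ckC W [[f81, f77]] 0 1 f257 = true := by decide +kernel

theorem c258 : ckC W [[f88, f89]] 0 1 f258 = true := by decide +kernel

theorem c259 : ckC W [[f88, f90]] 0 1 f259 = true := by decide +kernel

theorem c260 : ckC W [[f89, f88]] 0 1 f260 = true := by decide +kernel

theorem c261 : ckC W [[f260, f89]] 0 1 f261 = true := by decide +kernel

theorem c262 : ckC W [[f89, f91]] 0 1 f262 = true := by decide +kernel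

theorem c263 : ckC W [[f99, f94]] 0 1 f263 = true := by decide +kernel

theorem c264 : ckC W [[f99, f95]] 0 1 f264 = true := by decide +kernel

theorem c265 : ckC W [[f99, f100]] 0 1 f265 = true := by decide +kernel

theorem c266 : ckC W [[f100, f94]] 0 1 f266 = true := by decide +kernel

theorem c267 : ckC W [[f100, f96]] 0 1 f267 = true := by decide +kernel

theorem c268 : ckC W [[f100, f99]] 0 1 f268 = true := by decide +kernel

theorem c269 : ckC W [[f268, f100]] 0 1 f269 = true := by decide +kernel

theorem c270 : ckC W [[f109, f110]] 0 1 f270 = true := by decide +kernel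

theorem c271 : ckC W [[f109, f114]] 0 1 f271 = true := by decide +kernel

theorem c272 : ckC W [[f110, f109]] 0 1 f272 = true := by decide +kernel

theorem c273 : ckC W [[f272, f110]] 0 1 f273 = true := by decide +kernel

theorem c274 : ckC W [[f110, f114]] 0 1 f274 = true := by decide +kernel

theorem c275 : ckC W [[f120, f115]] 0 1 f275 = true := by decide +kernel

theorem c276 : ckC W [[f120, f116]] 0 1 f276 = true := by decide +kernel

theorem c277 : ckC W [[f120, f121]] 0 1 f277 = true := by decide +kernel

theorem c278 : ckC W [[f121, f115]] 0 1 f278 = true := by decide +kernel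

theorem c279 : ckC W [[f121, f117]] 0 1 f279 = true := by decide +kernel

theorem c280 : ckC W [[f121, f120]] 0 1 f280 = true := by decide +kernel

theorem c281 : ckC W [[f280, f121]] 0 1 f281 = true := by decide +kernel

theorem c282 : ckC W [[f131, f127]] 0 1 f282 = true := by decide +kernel

theorem c283 : ckC W [[f131, f132]] 0 1 f283 = true := by decide +kernel

theorem c284 : ckC W [[f131, f133]] 0 1 f284 = true := by decide +kernel

theorem c285 : ckC W [[f131, f136]] 0 1 f285 = true := by decide +kernel

theorem c286 : ckC W [[f132, f126]] 0 1 f286 = true := by decide +kernel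

theorem c287 : ckC W [[f132, f131]] 0 1 f287 = true := by decide +kernel

theorem c288 : ckC W [[f287, f132]] 0 1 f288 = true := by decide +kernel

theorem c289 : ckC W [[f132, f134]] 0 1 f289 = true := by decide +kernel

theorem c290 : ckC W [[f132, f136]] 0 1 f290 = true := by decide +kernel

theorem c291 : ckC W [[f142, f137]] 0 1 f291 = true := by decide +kernel

theorem c292 : ckC W [[f142, f138]] 0 1 f292 = true := by decide +kernel

theorem c293 : ckC W [[f142, f143]] 0 1 f293 = true := by decide +kernel

theorem c294 : ckC W [[f142, f147]] 0 1 f294 = true := by decide +kernel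

theorem c295 : ckC W [[f143, f137]] 0 1 f295 = true := by decide +kernel

theorem c296 : ckC W [[f143, f139]] 0 1 f296 = true := by decide +kernel

theorem c297 : ckC W [[f143, f142]] 0 1 f297 = true := by decide +kernel

theorem c298 : ckC W [[f297, f143]] 0 1 f298 = true := by decide +kernel

theorem c299 : ckC W [[f143, f147]] 0 1 f299 = true := by decide +kernel

theorem c300 : ckC W [[f153, f148]] 0 1 f300 = true := by decide +kernel

theorem c301 : ckC W [[f153, f149]] 0 1 f301 = true := by decide +kernel

theorem c302 : ckC W [[f153, f154]] 0 1 f302 = true := by decide +kernel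

theorem c303 : ckC W [[f153, f155]] 0 1 f303 = true := by decide +kernel

theorem c304 : ckC W [[f153, f158]] 0 1 f304 = true := by decide +kernel

theorem c305 : ckC W [[f154, f148]] 0 1 f305 = true := by decide +kernel

theorem c306 : ckC W [[f154, f153]] 0 1 f306 = true := by decide +kernel

theorem c307 : ckC W [[f306, f154]] 0 1 f307 = true := by decide +kernel

theorem c308 : ckC W [[f154, f156]] 0 1 f308 = true := by decide +kernel

theorem c309 : ckC W [[f154, f158]] 0 1 f309 = true := by decide +kernel

theorem c310 : ckC W [[f161, f160]] 0 1 f310 = true := by decide +kernel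

theorem c311 : ckC W [[f161, f162]] 0 1 f311 = true := by decide +kernel

theorem c312 : ckC W [[f162, f161]] 0 1 f312 = true := by decide +kernel

theorem c313 : ckC W [[f312, f160]] 0 1 f313 = true := by decide +kernel

theorem c314 : ckC W [[f312, f162]] 0 1 f314 = true := by decide +kernel

theorem c315 : ckC W [[f165, f164]] 0 1 f315 = true := by decide +kernel

theorem c316 : ckC W [[f165, f166]] 0 1 f316 = true := by decide +kernel

theorem c317 : ckC W [[f166, f165]] 0 1 f317 = true := by decide +kernel

theorem c318 : ckC W [[f317, f164]] 0 1 f318 = true := by decide +kernel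

theorem c319 : ckC W [[f317, f166]] 0 1 f319 = true := by decide +kernel

end Pool.Agent.SWC93
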