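import Mathlib
import Pool.Agent.SWC93.C0
import Pool.Agent.SWC93.E

/-!
# The tables with at most three rails are correct
-/

set_option autoImplicit false

namespace Pool.Agent.SWC93

open Pool.Agent.SWL57

section

variable {M : Md rels relsE} {n m : ℕ}

theorem fk_le (h : n ≤ m) {f : Fc} (hf : Fk M W m f) : Fk M W n f := by
  refine ⟨hf.1, fun i hi => ?_⟩
  obtain ⟨h1, h2⟩ := hf.2 i hi
  exact ⟨h1.weak fun x hx => cg_le M h hx, h2⟩

theorem fl_nil : ∀ f ∈ ([] : List Fc), Fk M W n f := fun _ h => absurd h List.not_mem_nil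

theorem fl_cons {f : Fc} {l : List Fc} (h : n ≤ m) (hf : Fk M W m f)
    (hl : ∀ f ∈ l, Fk M W n f) : ∀ g ∈ f :: l, Fk M W n g := by
  intro g hg
  rcases List.mem_cons.1 hg with rfl | hg
  · exact fk_le h hf
  · exact hl g hg

theorem fs_nil : Fs M W n [] := fun _ h => absurd h List.not_mem_nil

theorem fs_cons {l : List Fc} {L : List (List Fc)} (hl : ∀ f ∈ l, Fk M W n f)
    (hL : Fs M W n L) : Fs M W n (l :: L) := by
  intro l' h
  rcases List.mem_cons.1 h with rfl | h
  · exact hl
  · exact hL l' h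

end

variable (M : Md rels relsE)

theorem g1 : ∀ u, Gd (M.cg 15 (W 1).k) (sy M W 1 bl1) (gS S1 u) :=
  chBT_spec hW (n := 15) (L := L1) fs_nil (by norm_num) o1 b1

theorem k0 : Fk M W 15 f0 := chT_fk (n := 15) (a := 0) o1 (List.mem_of_getElem? (i := 0) rfl)
  (by norm_num) (by norm_num) (g1 M) t0

theorem g3 : ∀ u, Gd (M.cg 15 (W 3).k) (sy M W 3 bl3) (gS S3 u) :=
  chBT_spec hW (n := 15) (L := L3) (fs_cons (fl_cons (by norm_num) (k0 M) fl_nil)
    fs_nil) (by norm_num) o3 b3

theorem k9 : Fk M W 15 f9 := chT_fk (n := 15) (a := 0) o3 (List.mem_of_getElem? (i := 0) rfl)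
  (by norm_num) (by norm_num) (g3 M) t9

theorem k7 : Fk M W 15 f7 := chT_fk (n := 15) (a := 0) o3 (List.mem_of_getElem? (i := 2) rfl)
  (by norm_num) (by norm_num) (g3 M) t7

theorem k88 : Fk M W 15 f88 := ckX_fk hW (L := [[f7, f9]])
  (fs_cons (fl_cons (by norm_num) (k7 M) (fl_cons (by norm_num) (k9 M) fl_nil))
    fs_nil) (by norm_num) x88

theorem k230 : Fk M W 15 f230 := ckC_fk (L := [[f9, f88]])
  (fs_cons (fl_cons (by norm_num) (k9 M) (fl_cons (by norm_num) (k88 M) fl_nil))
    fs_nil) (by norm_num) c230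

theorem g2 : ∀ u, Gd (M.cg 15 (W 2).k) (sy M W 2 bl2) (gS S2 u) :=
  chBT_spec hW (n := 15) (L := L2) (fs_cons (fl_cons (by norm_num) (k0 M) fl_nil)
    fs_nil) (by norm_num) o2 b2

theorem k12 : Fk M W 15 f12 := chT_fk (n := 15) (a := 0) o2 (List.mem_of_getElem? (i := 0) rfl)
  (by norm_num) (by norm_num) (g2 M) t12

theorem k13 : Fk M W 15 f13 := ckX_fk hW (L := [[f0]])
  (fs_cons (fl_cons (by norm_num) (k0 M) fl_nil)
    fs_nil) (by norm_num) x13

theorem k8 : Fk M W 15 f8 := chT_fk (n := 15) (a := 0) o3 (List.mem_of_getElem? (i := 1) rfl)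
  (by norm_num) (by norm_num) (g3 M) t8

theorem k89 : Fk M W 15 f89 := ckX_fk hW (L := [[f7, f8]])
  (fs_cons (fl_cons (by norm_num) (k7 M) (fl_cons (by norm_num) (k8 M) fl_nil))
    fs_nil) (by norm_num) x89

theorem g5 : ∀ u, Gd (M.cg 15 (W 5).k) (sy M W 5 bl5) (gS S5 u) :=
  chBT_spec hW (n := 15) (L := L5) (fs_cons (fl_cons (by norm_num) (k0 M) (fl_cons (by norm_num) (k12 M) (fl_cons (by norm_num) (k13 M) (fl_cons (by norm_num) (k89 M) (fl_cons (by norm_num) (k230 M) fl_nil)))))
    fs_nil) (by norm_num) o5 b5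

theorem k1 : Fk M W 15 f1 := chT_fk (n := 15) (a := 0) o5 (List.mem_of_getElem? (i := 1) rfl)
  (by norm_num) (by norm_num) (g5 M) t1

theorem k14 : Fk M W 15 f14 := chT_fk (n := 15) (a := 0) o5 (List.mem_of_getElem? (i := 2) rfl)
  (by norm_num) (by norm_num) (g5 M) t14

theorem g6 : ∀ u, Gd (M.cg 15 (W 6).k) (sy M W 6 bl6) (gS S6 u) :=
  chBT_spec hW (n := 15) (L := L6) (fs_cons (fl_cons (by norm_num) (k12 M) (fl_cons (by norm_num) (k14 M) fl_nil))
    fs_nil) (by norm_num) o6 b6

theorem k29 : Fk M W 15 f29 := chT_fk (n := 15) (a := 0) o6 (List.mem_of_getElem? (i := 0) rfl)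
  (by norm_num) (by norm_num) (g6 M) t29

theorem k87 : Fk M W 15 f87 := chT_fk (n := 15) (a := 0) o5 (List.mem_of_getElem? (i := 0) rfl)
  (by norm_num) (by norm_num) (g5 M) t87

theorem k258 : Fk M W 15 f258 := ckC_fk (L := [[f88, f89]])
  (fs_cons (fl_cons (by norm_num) (k88 M) (fl_cons (by norm_num) (k89 M) fl_nil))
    fs_nil) (by norm_num) c258

theorem k260 : Fk M W 15 f260 := ckC_fk (L := [[f89, f88]])
  (fs_cons (fl_cons (by norm_num) (k89 M) (fl_cons (by norm_num) (k88 M) fl_nil))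
    fs_nil) (by norm_num) c260

theorem k261 : Fk M W 15 f261 := ckC_fk (L := [[f260, f89]])
  (fs_cons (fl_cons (by norm_num) (k260 M) (fl_cons (by norm_num) (k89 M) fl_nil))
    fs_nil) (by norm_num) c261

theorem k15 : Fk M W 15 f15 := chT_fk (n := 15) (a := 0) o5 (List.mem_of_getElem? (i := 3) rfl)
  (by norm_num) (by norm_num) (g5 M) t15

theorem g8 : ∀ u, Gd (M.cg 15 (W 8).k) (sy M W 8 bl8) (gS S8 u) :=
  chBT_spec hW (n := 15) (L := L8) (fs_cons (fl_cons (by norm_num) (k7 M) (fl_cons (by norm_num) (k8 M) (fl_cons (by norm_num) (k9 M) (fl_cons (by norm_num) (k14 M) (fl_cons (by norm_num) (k15 M) (fl_cons (by norm_num) (k87 M) (fl_cons (by norm_num) (k88 M) (fl_cons (by norm_num) (k89 M) (fl_cons (by norm_num) (k258 M) (fl_cons (by norm_num) (k260 M) (fl_cons (by norm_num) (k261 M) fl_nil)))))))))))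
    fs_nil) (by norm_num) o8 b8

theorem k93 : Fk M W 15 f93 := chT_fk (n := 15) (a := 0) o8 (List.mem_of_getElem? (i := 3) rfl)
  (by norm_num) (by norm_num) (g8 M) t93

theorem k232 : Fk M W 15 f232 := ckC_fk (L := [[f13, f15]])
  (fs_cons (fl_cons (by norm_num) (k13 M) (fl_cons (by norm_num) (k15 M) fl_nil))
    fs_nil) (by norm_num) c232

theorem k30 : Fk M W 15 f30 := ckX_fk hW (L := [[f232]])
  (fs_cons (fl_cons (by norm_num) (k232 M) fl_nil)
    fs_nil) (by norm_num) x30

theorem g10 : ∀ u, Gd (M.cg 15 (W 10).k) (sy M W 10 bl10) (gS S10 u) :=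
  chBT_spec hW (n := 15) (L := L10) (fs_cons (fl_cons (by norm_num) (k1 M) (fl_cons (by norm_num) (k29 M) (fl_cons (by norm_num) (k30 M) (fl_cons (by norm_num) (k87 M) (fl_cons (by norm_num) (k93 M) fl_nil)))))
    fs_nil) (by norm_num) o10 b10

theorem k2 : Fk M W 15 f2 := chT_fk (n := 15) (a := 0) o10 (List.mem_of_getElem? (i := 1) rfl)
  (by norm_num) (by norm_num) (g10 M) t2

theorem k167 : Fk M W 15 f167 := ckC_fk (L := [[f0, f9]])
  (fs_cons (fl_cons (by norm_num) (k0 M) (fl_cons (by norm_num) (k9 M) fl_nil))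
    fs_nil) (by norm_num) c167

theorem k168 : Fk M W 15 f168 := ckC_fk (L := [[f167, f88]])
  (fs_cons (fl_cons (by norm_num) (k167 M) (fl_cons (by norm_num) (k88 M) fl_nil))
    fs_nil) (by norm_num) c168

theorem k169 : Fk M W 15 f169 := ckC_fk (L := [[f168, f89]])
  (fs_cons (fl_cons (by norm_num) (k168 M) (fl_cons (by norm_num) (k89 M) fl_nil))
    fs_nil) (by norm_num) c169

theorem k170 : Fk M W 15 f170 := ckC_fk (L := [[f169, f88]])
  (fs_cons (fl_cons (by norm_num) (k169 M) (fl_cons (by norm_num) (k88 M) fl_nil))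
    fs_nil) (by norm_num) c170

theorem k171 : Fk M W 15 f171 := ckC_fk (L := [[f167, f89]])
  (fs_cons (fl_cons (by norm_num) (k167 M) (fl_cons (by norm_num) (k89 M) fl_nil))
    fs_nil) (by norm_num) c171

theorem k172 : Fk M W 15 f172 := ckC_fk (L := [[f171, f88]])
  (fs_cons (fl_cons (by norm_num) (k171 M) (fl_cons (by norm_num) (k88 M) fl_nil))
    fs_nil) (by norm_num) c172

theorem g4 : ∀ u, Gd (M.cg 15 (W 4).k) (sy M W 4 bl4) (gS S4 u) :=
  chBT_spec hW (n := 15) (L := L4) fs_nil (by norm_num) o4 b4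

theorem k10 : Fk M W 15 f10 := chT_fk (n := 15) (a := 0) o4 (List.mem_of_getElem? (i := 1) rfl)
  (by norm_num) (by norm_num) (g4 M) t10

theorem g7 : ∀ u, Gd (M.cg 15 (W 7).k) (sy M W 7 bl7) (gS S7 u) :=
  chBT_spec hW (n := 15) (L := L7) (fs_cons (fl_cons (by norm_num) (k7 M) (fl_cons (by norm_num) (k8 M) (fl_cons (by norm_num) (k9 M) (fl_cons (by norm_num) (k10 M) (fl_cons (by norm_num) (k167 M) (fl_cons (by norm_num) (k168 M) (fl_cons (by norm_num) (k169 M) (fl_cons (by norm_num) (k170 M) (fl_cons (by norm_num) (k171 M) (fl_cons (by norm_num) (k172 M) fl_nil))))))))))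
    fs_nil) (by norm_num) o7 b7

theorem k16 : Fk M W 15 f16 := chT_fk (n := 15) (a := 0) o7 (List.mem_of_getElem? (i := 5) rfl)
  (by norm_num) (by norm_num) (g7 M) t16

theorem k17 : Fk M W 15 f17 := chT_fk (n := 15) (a := 0) o7 (List.mem_of_getElem? (i := 4) rfl)
  (by norm_num) (by norm_num) (g7 M) t17

theorem k18 : Fk M W 15 f18 := chT_fk (n := 15) (a := 0) o7 (List.mem_of_getElem? (i := 3) rfl)
  (by norm_num) (by norm_num) (g7 M) t18

theorem k100 : Fk M W 15 f100 := ckX_fk hW (L := [[f16, f17, f18]])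
  (fs_cons (fl_cons (by norm_num) (k16 M) (fl_cons (by norm_num) (k17 M) (fl_cons (by norm_num) (k18 M) fl_nil)))
    fs_nil) (by norm_num) x100

theorem k99 : Fk M W 15 f99 := ckX_fk hW (L := [[f16, f17, f18]])
  (fs_cons (fl_cons (by norm_num) (k16 M) (fl_cons (by norm_num) (k17 M) (fl_cons (by norm_num) (k18 M) fl_nil)))
    fs_nil) (by norm_num) x99

theorem k233 : Fk M W 15 f233 := ckC_fk (L := [[f18, f99]])
  (fs_cons (fl_cons (by norm_num) (k18 M) (fl_cons (by norm_num) (k99 M) fl_nil))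
    fs_nil) (by norm_num) c233

theorem k11 : Fk M W 15 f11 := chT_fk (n := 15) (a := 0) o4 (List.mem_of_getElem? (i := 0) rfl)
  (by norm_num) (by norm_num) (g4 M) t11

theorem k231 : Fk M W 15 f231 := ckC_fk (L := [[f13, f11]])
  (fs_cons (fl_cons (by norm_num) (k13 M) (fl_cons (by norm_num) (k11 M) fl_nil))
    fs_nil) (by norm_num) c231

theorem k21 : Fk M W 15 f21 := ckX_fk hW (L := [[f231]])
  (fs_cons (fl_cons (by norm_num) (k231 M) fl_nil)
    fs_nil) (by norm_num) x21

theorem g9 : ∀ u, Gd (M.cg 15 (W 9).k) (sy M W 9 bl9) (gS S9 u) :=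
  chBT_spec hW (n := 15) (L := L9) (fs_cons (fl_cons (by norm_num) (k10 M) (fl_cons (by norm_num) (k15 M) (fl_cons (by norm_num) (k18 M) (fl_cons (by norm_num) (k21 M) (fl_cons (by norm_num) (k100 M) (fl_cons (by norm_num) (k233 M) fl_nil))))))
    fs_nil) (by norm_num) o9 b9

theorem k97 : Fk M W 15 f97 := chT_fk (n := 15) (a := 0) o9 (List.mem_of_getElem? (i := 0) rfl)
  (by norm_num) (by norm_num) (g9 M) t97

theorem k98 : Fk M W 15 f98 := chT_fk (n := 15) (a := 0) o9 (List.mem_of_getElem? (i := 1) rfl)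
  (by norm_num) (by norm_num) (g9 M) t98

theorem k24 : Fk M W 15 f24 := chT_fk (n := 15) (a := 0) o8 (List.mem_of_getElem? (i := 6) rfl)
  (by norm_num) (by norm_num) (g8 M) t24

theorem k26 : Fk M W 15 f26 := chT_fk (n := 15) (a := 0) o8 (List.mem_of_getElem? (i := 4) rfl)
  (by norm_num) (by norm_num) (g8 M) t26

theorem k90 : Fk M W 15 f90 := chT_fk (n := 15) (a := 0) o8 (List.mem_of_getElem? (i := 2) rfl)
  (by norm_num) (by norm_num) (g8 M) t90

theorem k259 : Fk M W 15 f259 := ckC_fk (L := [[f88, f90]])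
  (fs_cons (fl_cons (by norm_num) (k88 M) (fl_cons (by norm_num) (k90 M) fl_nil))
    fs_nil) (by norm_num) c259

theorem k109 : Fk M W 15 f109 := ckX_fk hW (L := [[f24, f26, f259]])
  (fs_cons (fl_cons (by norm_num) (k24 M) (fl_cons (by norm_num) (k26 M) (fl_cons (by norm_num) (k259 M) fl_nil)))
    fs_nil) (by norm_num) x109

theorem k25 : Fk M W 15 f25 := chT_fk (n := 15) (a := 0) o8 (List.mem_of_getElem? (i := 5) rfl)
  (by norm_num) (by norm_num) (g8 M) t25

theorem k91 : Fk M W 15 f91 := chT_fk (n := 15) (a := 0) o8 (List.mem_of_getElem? (i := 1) rfl)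
  (by norm_num) (by norm_num) (g8 M) t91

theorem k262 : Fk M W 15 f262 := ckC_fk (L := [[f89, f91]])
  (fs_cons (fl_cons (by norm_num) (k89 M) (fl_cons (by norm_num) (k91 M) fl_nil))
    fs_nil) (by norm_num) c262

theorem k110 : Fk M W 15 f110 := ckX_fk hW (L := [[f24, f25, f262]])
  (fs_cons (fl_cons (by norm_num) (k24 M) (fl_cons (by norm_num) (k25 M) (fl_cons (by norm_num) (k262 M) fl_nil)))
    fs_nil) (by norm_num) x110

theorem k270 : Fk M W 15 f270 := ckC_fk (L := [[f109, f110]])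
  (fs_cons (fl_cons (by norm_num) (k109 M) (fl_cons (by norm_num) (k110 M) fl_nil))
    fs_nil) (by norm_num) c270

theorem k272 : Fk M W 15 f272 := ckC_fk (L := [[f110, f109]])
  (fs_cons (fl_cons (by norm_num) (k110 M) (fl_cons (by norm_num) (k109 M) fl_nil))
    fs_nil) (by norm_num) c272

theorem k273 : Fk M W 15 f273 := ckC_fk (L := [[f272, f110]])
  (fs_cons (fl_cons (by norm_num) (k272 M) (fl_cons (by norm_num) (k110 M) fl_nil))
    fs_nil) (by norm_num) c273

theorem k19 : Fk M W 15 f19 := chT_fk (n := 15) (a := 0) o10 (List.mem_of_getElem? (i := 3) rfl)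
  (by norm_num) (by norm_num) (g10 M) t19

theorem k20 : Fk M W 15 f20 := chT_fk (n := 15) (a := 0) o10 (List.mem_of_getElem? (i := 2) rfl)
  (by norm_num) (by norm_num) (g10 M) t20

theorem k31 : Fk M W 15 f31 := chT_fk (n := 15) (a := 0) o10 (List.mem_of_getElem? (i := 4) rfl)
  (by norm_num) (by norm_num) (g10 M) t31

theorem k84 : Fk M W 15 f84 := chT_fk (n := 15) (a := 0) o7 (List.mem_of_getElem? (i := 2) rfl)
  (by norm_num) (by norm_num) (g7 M) t84

theorem k85 : Fk M W 15 f85 := chT_fk (n := 15) (a := 0) o7 (List.mem_of_getElem? (i := 1) rfl)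
  (by norm_num) (by norm_num) (g7 M) t85

theorem k86 : Fk M W 15 f86 := chT_fk (n := 15) (a := 0) o7 (List.mem_of_getElem? (i := 0) rfl)
  (by norm_num) (by norm_num) (g7 M) t86

theorem k92 : Fk M W 15 f92 := chT_fk (n := 15) (a := 0) o8 (List.mem_of_getElem? (i := 0) rfl)
  (by norm_num) (by norm_num) (g8 M) t92

theorem k108 : Fk M W 15 f108 := chT_fk (n := 15) (a := 0) o10 (List.mem_of_getElem? (i := 0) rfl)
  (by norm_num) (by norm_num) (g10 M) t108

theorem g13 : ∀ u, Gd (M.cg 14 (W 13).k) (sy M W 13 bl13) (gS S13 u) :=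
  chBT_spec hW (n := 14) (L := L13) (fs_cons (fl_cons (by norm_num) (k16 M) (fl_cons (by norm_num) (k17 M) (fl_cons (by norm_num) (k18 M) (fl_cons (by norm_num) (k19 M) (fl_cons (by norm_num) (k20 M) (fl_cons (by norm_num) (k24 M) (fl_cons (by norm_num) (k25 M) (fl_cons (by norm_num) (k31 M) (fl_cons (by norm_num) (k84 M) (fl_cons (by norm_num) (k85 M) (fl_cons (by norm_num) (k86 M) (fl_cons (by norm_num) (k90 M) (fl_cons (by norm_num) (k91 M) (fl_cons (by norm_num) (k92 M) (fl_cons (by norm_num) (k93 M) (fl_cons (by norm_num) (k108 M) fl_nil))))))))))))))))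
    (fs_cons (fl_cons (by norm_num) (k109 M) (fl_cons (by norm_num) (k110 M) (fl_cons (by norm_num) (k270 M) (fl_cons (by norm_num) (k272 M) (fl_cons (by norm_num) (k273 M) fl_nil)))))
    fs_nil)) (by norm_num) o13 b13

theorem k41 : Fk M W 14 f41 := chT_fk (n := 14) (a := 0) o13 (List.mem_of_getElem? (i := 9) rfl)
  (by norm_num) (by norm_num) (g13 M) t41

theorem k42 : Fk M W 14 f42 := chT_fk (n := 14) (a := 0) o13 (List.mem_of_getElem? (i := 8) rfl)
  (by norm_num) (by norm_num) (g13 M) t42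

theorem k43 : Fk M W 14 f43 := chT_fk (n := 14) (a := 0) o13 (List.mem_of_getElem? (i := 7) rfl)
  (by norm_num) (by norm_num) (g13 M) t43

theorem k94 : Fk M W 14 f94 := chT_fk (n := 14) (a := 0) o13 (List.mem_of_getElem? (i := 5) rfl)
  (by norm_num) (by norm_num) (g13 M) t94

theorem k266 : Fk M W 14 f266 := ckC_fk (L := [[f100, f94]])
  (fs_cons (fl_cons (by norm_num) (k100 M) (fl_cons (by norm_num) (k94 M) fl_nil))
    fs_nil) (by norm_num) c266

theorem k96 : Fk M W 14 f96 := chT_fk (n := 14) (a := 0) o13 (List.mem_of_getElem? (i := 3) rfl)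
  (by norm_num) (by norm_num) (g13 M) t96

theorem k267 : Fk M W 14 f267 := ckC_fk (L := [[f100, f96]])
  (fs_cons (fl_cons (by norm_num) (k100 M) (fl_cons (by norm_num) (k96 M) fl_nil))
    fs_nil) (by norm_num) c267

theorem k114 : Fk M W 14 f114 := chT_fk (n := 14) (a := 0) o13 (List.mem_of_getElem? (i := 6) rfl)
  (by norm_num) (by norm_num) (g13 M) t114

theorem k274 : Fk M W 14 f274 := ckC_fk (L := [[f110, f114]])
  (fs_cons (fl_cons (by norm_num) (k110 M) (fl_cons (by norm_num) (k114 M) fl_nil))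
    fs_nil) (by norm_num) c274

theorem k132 : Fk M W 14 f132 := ckX_fk hW (L := [[f41, f42, f43, f266, f267, f274]])
  (fs_cons (fl_cons (by norm_num) (k41 M) (fl_cons (by norm_num) (k42 M) (fl_cons (by norm_num) (k43 M) (fl_cons (by norm_num) (k266 M) (fl_cons (by norm_num) (k267 M) (fl_cons (by norm_num) (k274 M) fl_nil))))))
    fs_nil) (by norm_num) x132

theorem g11 : ∀ u, Gd (M.cg 15 (W 11).k) (sy M W 11 bl11) (gS S11 u) :=
  chBT_spec hW (n := 15) (L := L11) (fs_cons (fl_cons (by norm_num) (k29 M) (fl_cons (by norm_num) (k31 M) fl_nil))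
    fs_nil) (by norm_num) o11 b11

theorem k46 : Fk M W 15 f46 := chT_fk (n := 15) (a := 0) o11 (List.mem_of_getElem? (i := 0) rfl)
  (by norm_num) (by norm_num) (g11 M) t46

theorem k234 : Fk M W 15 f234 := ckC_fk (L := [[f21, f20]])
  (fs_cons (fl_cons (by norm_num) (k21 M) (fl_cons (by norm_num) (k20 M) fl_nil))
    fs_nil) (by norm_num) c234

theorem k32 : Fk M W 15 f32 := chT_fk (n := 15) (a := 0) o10 (List.mem_of_getElem? (i := 5) rfl)
  (by norm_num) (by norm_num) (g10 M) t32

theorem k237 : Fk M W 15 f237 := ckC_fk (L := [[f30, f32]])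
  (fs_cons (fl_cons (by norm_num) (k30 M) (fl_cons (by norm_num) (k32 M) fl_nil))
    fs_nil) (by norm_num) c237

theorem k47 : Fk M W 15 f47 := ckX_fk hW (L := [[f234, f237]])
  (fs_cons (fl_cons (by norm_num) (k234 M) (fl_cons (by norm_num) (k237 M) fl_nil))
    fs_nil) (by norm_num) x47

theorem k263 : Fk M W 14 f263 := ckC_fk (L := [[f99, f94]])
  (fs_cons (fl_cons (by norm_num) (k99 M) (fl_cons (by norm_num) (k94 M) fl_nil))
    fs_nil) (by norm_num) c263

theorem k95 : Fk M W 14 f95 := chT_fk (n := 14) (a := 0) o13 (List.mem_of_getElem? (i := 4) rfl)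
  (by norm_num) (by norm_num) (g13 M) t95

theorem k264 : Fk M W 14 f264 := ckC_fk (L := [[f99, f95]])
  (fs_cons (fl_cons (by norm_num) (k99 M) (fl_cons (by norm_num) (k95 M) fl_nil))
    fs_nil) (by norm_num) c264

theorem k271 : Fk M W 14 f271 := ckC_fk (L := [[f109, f114]])
  (fs_cons (fl_cons (by norm_num) (k109 M) (fl_cons (by norm_num) (k114 M) fl_nil))
    fs_nil) (by norm_num) c271

theorem k131 : Fk M W 14 f131 := ckX_fk hW (L := [[f41, f42, f43, f263, f264, f271]])
  (fs_cons (fl_cons (by norm_num) (k41 M) (fl_cons (by norm_num) (k42 M) (fl_cons (by norm_num) (k43 M) (fl_cons (by norm_num) (k263 M) (fl_cons (by norm_num) (k264 M) (fl_cons (by norm_num) (k271 M) fl_nil))))))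
    fs_nil) (by norm_num) x131

theorem k242 : Fk M W 14 f242 := ckC_fk (L := [[f43, f131]])
  (fs_cons (fl_cons (by norm_num) (k43 M) (fl_cons (by norm_num) (k131 M) fl_nil))
    fs_nil) (by norm_num) c242

theorem k23 : Fk M W 15 f23 := chT_fk (n := 15) (a := 0) o9 (List.mem_of_getElem? (i := 5) rfl)
  (by norm_num) (by norm_num) (g9 M) t23

theorem g15 : ∀ u, Gd (M.cg 14 (W 15).k) (sy M W 15 bl15) (gS S15 u) :=
  chBT_spec hW (n := 14) (L := L15) (fs_cons (fl_cons (by norm_num) (k2 M) (fl_cons (by norm_num) (k19 M) (fl_cons (by norm_num) (k23 M) (fl_cons (by norm_num) (k46 M) (fl_cons (by norm_num) (k47 M) (fl_cons (by norm_num) (k94 M) (fl_cons (by norm_num) (k97 M) (fl_cons (by norm_num) (k98 M) (fl_cons (by norm_num) (k108 M) (fl_cons (by norm_num) (k114 M) (fl_cons (by norm_num) (k132 M) (fl_cons (by norm_num) (k242 M) fl_nil))))))))))))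
    fs_nil) (by norm_num) o15 b15

theorem k3 : Fk M W 14 f3 := chT_fk (n := 14) (a := 0) o15 (List.mem_of_getElem? (i := 2) rfl)
  (by norm_num) (by norm_num) (g15 M) t3

theorem k48 : Fk M W 14 f48 := chT_fk (n := 14) (a := 0) o15 (List.mem_of_getElem? (i := 5) rfl)
  (by norm_num) (by norm_num) (g15 M) t48

theorem k244 : Fk M W 14 f244 := ckC_fk (L := [[f47, f48]])
  (fs_cons (fl_cons (by norm_num) (k47 M) (fl_cons (by norm_num) (k48 M) fl_nil))
    fs_nil) (by norm_num) c244

theorem k49 : Fk M W 14 f49 := chT_fk (n := 14) (a := 0) o15 (List.mem_of_getElem? (i := 6) rfl)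
  (by norm_num) (by norm_num) (g15 M) t49

theorem k245 : Fk M W 14 f245 := ckC_fk (L := [[f47, f49]])
  (fs_cons (fl_cons (by norm_num) (k47 M) (fl_cons (by norm_num) (k49 M) fl_nil))
    fs_nil) (by norm_num) c245

theorem k37 : Fk M W 14 f37 := chT_fk (n := 14) (a := 0) o15 (List.mem_of_getElem? (i := 3) rfl)
  (by norm_num) (by norm_num) (g15 M) t37

theorem k22 : Fk M W 15 f22 := chT_fk (n := 15) (a := 0) o9 (List.mem_of_getElem? (i := 4) rfl)
  (by norm_num) (by norm_num) (g9 M) t22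

theorem k235 : Fk M W 15 f235 := ckC_fk (L := [[f21, f22]])
  (fs_cons (fl_cons (by norm_num) (k21 M) (fl_cons (by norm_num) (k22 M) fl_nil))
    fs_nil) (by norm_num) c235

theorem k236 : Fk M W 15 f236 := ckC_fk (L := [[f21, f23]])
  (fs_cons (fl_cons (by norm_num) (k21 M) (fl_cons (by norm_num) (k23 M) fl_nil))
    fs_nil) (by norm_num) c236

theorem k38 : Fk M W 15 f38 := ckX_fk hW (L := [[f235, f236]])
  (fs_cons (fl_cons (by norm_num) (k235 M) (fl_cons (by norm_num) (k236 M) fl_nil))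
    fs_nil) (by norm_num) x38

theorem k239 : Fk M W 14 f239 := ckC_fk (L := [[f38, f37]])
  (fs_cons (fl_cons (by norm_num) (k38 M) (fl_cons (by norm_num) (k37 M) fl_nil))
    fs_nil) (by norm_num) c239

theorem k64 : Fk M W 14 f64 := ckX_fk hW (L := [[f239, f244, f245]])
  (fs_cons (fl_cons (by norm_num) (k239 M) (fl_cons (by norm_num) (k244 M) (fl_cons (by norm_num) (k245 M) fl_nil)))
    fs_nil) (by norm_num) x64

theorem k129 : Fk M W 14 f129 := chT_fk (n := 14) (a := 0) o15 (List.mem_of_getElem? (i := 0) rfl)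
  (by norm_num) (by norm_num) (g15 M) t129

theorem k130 : Fk M W 14 f130 := chT_fk (n := 14) (a := 0) o15 (List.mem_of_getElem? (i := 1) rfl)
  (by norm_num) (by norm_num) (g15 M) t130

theorem k36 : Fk M W 14 f36 := chT_fk (n := 14) (a := 0) o15 (List.mem_of_getElem? (i := 4) rfl)
  (by norm_num) (by norm_num) (g15 M) t36

theorem k283 : Fk M W 14 f283 := ckC_fk (L := [[f131, f132]])
  (fs_cons (fl_cons (by norm_num) (k131 M) (fl_cons (by norm_num) (k132 M) fl_nil))
    fs_nil) (by norm_num) c283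

theorem k287 : Fk M W 14 f287 := ckC_fk (L := [[f132, f131]])
  (fs_cons (fl_cons (by norm_num) (k132 M) (fl_cons (by norm_num) (k131 M) fl_nil))
    fs_nil) (by norm_num) c287

theorem k288 : Fk M W 14 f288 := ckC_fk (L := [[f287, f132]])
  (fs_cons (fl_cons (by norm_num) (k287 M) (fl_cons (by norm_num) (k132 M) fl_nil))
    fs_nil) (by norm_num) c288

theorem k265 : Fk M W 15 f265 := ckC_fk (L := [[f99, f100]])
  (fs_cons (fl_cons (by norm_num) (k99 M) (fl_cons (by norm_num) (k100 M) fl_nil))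
    fs_nil) (by norm_num) c265

theorem k268 : Fk M W 15 f268 := ckC_fk (L := [[f100, f99]])
  (fs_cons (fl_cons (by norm_num) (k100 M) (fl_cons (by norm_num) (k99 M) fl_nil))
    fs_nil) (by norm_num) c268

theorem k269 : Fk M W 15 f269 := ckC_fk (L := [[f268, f100]])
  (fs_cons (fl_cons (by norm_num) (k268 M) (fl_cons (by norm_num) (k100 M) fl_nil))
    fs_nil) (by norm_num) c269

theorem k27 : Fk M W 15 f27 := chT_fk (n := 15) (a := 0) o9 (List.mem_of_getElem? (i := 3) rfl)
  (by norm_num) (by norm_num) (g9 M) t27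

theorem k28 : Fk M W 15 f28 := chT_fk (n := 15) (a := 0) o9 (List.mem_of_getElem? (i := 2) rfl)
  (by norm_num) (by norm_num) (g9 M) t28

theorem g12 : ∀ u, Gd (M.cg 15 (W 12).k) (sy M W 12 bl12) (gS S12 u) :=
  chBT_spec hW (n := 15) (L := L12) (fs_cons (fl_cons (by norm_num) (k16 M) (fl_cons (by norm_num) (k17 M) (fl_cons (by norm_num) (k18 M) (fl_cons (by norm_num) (k22 M) (fl_cons (by norm_num) (k24 M) (fl_cons (by norm_num) (k25 M) (fl_cons (by norm_num) (k26 M) (fl_cons (by norm_num) (k27 M) (fl_cons (by norm_num) (k28 M) (fl_cons (by norm_num) (k84 M) (fl_cons (by norm_num) (k85 M) (fl_cons (by norm_num) (k86 M) (fl_cons (by norm_num) (k90 M) (fl_cons (by norm_num) (k91 M) (fl_cons (by norm_num) (k92 M) (fl_cons (by norm_num) (k93 M) fl_nil))))))))))))))))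
    (fs_cons (fl_cons (by norm_num) (k98 M) (fl_cons (by norm_num) (k99 M) (fl_cons (by norm_num) (k100 M) (fl_cons (by norm_num) (k265 M) (fl_cons (by norm_num) (k268 M) (fl_cons (by norm_num) (k269 M) fl_nil))))))
    fs_nil)) (by norm_num) o12 b12

theorem k33 : Fk M W 14 f33 := chT_fk (n := 14) (a := 1) o12 (List.mem_of_getElem? (i := 9) rfl)
  (by norm_num) (by norm_num) (g12 M) t33

theorem k34 : Fk M W 14 f34 := chT_fk (n := 14) (a := 1) o12 (List.mem_of_getElem? (i := 8) rfl)
  (by norm_num) (by norm_num) (g12 M) t34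

theorem k35 : Fk M W 14 f35 := chT_fk (n := 14) (a := 1) o12 (List.mem_of_getElem? (i := 7) rfl)
  (by norm_num) (by norm_num) (g12 M) t35

theorem k101 : Fk M W 14 f101 := chT_fk (n := 14) (a := 1) o12 (List.mem_of_getElem? (i := 2) rfl)
  (by norm_num) (by norm_num) (g12 M) t101

theorem k102 : Fk M W 14 f102 := chT_fk (n := 14) (a := 1) o12 (List.mem_of_getElem? (i := 1) rfl)
  (by norm_num) (by norm_num) (g12 M) t102

theorem k103 : Fk M W 14 f103 := chT_fk (n := 14) (a := 1) o12 (List.mem_of_getElem? (i := 0) rfl)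
  (by norm_num) (by norm_num) (g12 M) t103

theorem k104 : Fk M W 14 f104 := chT_fk (n := 14) (a := 1) o12 (List.mem_of_getElem? (i := 6) rfl)
  (by norm_num) (by norm_num) (g12 M) t104

theorem k105 : Fk M W 14 f105 := chT_fk (n := 14) (a := 1) o12 (List.mem_of_getElem? (i := 5) rfl)
  (by norm_num) (by norm_num) (g12 M) t105

theorem k106 : Fk M W 14 f106 := chT_fk (n := 14) (a := 1) o12 (List.mem_of_getElem? (i := 4) rfl)
  (by norm_num) (by norm_num) (g12 M) t106

theorem k107 : Fk M W 14 f107 := chT_fk (n := 14) (a := 1) o12 (List.mem_of_getElem? (i := 3) rfl)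
  (by norm_num) (by norm_num) (g12 M) t107

theorem k111 : Fk M W 14 f111 := chT_fk (n := 14) (a := 0) o13 (List.mem_of_getElem? (i := 2) rfl)
  (by norm_num) (by norm_num) (g13 M) t111

theorem k112 : Fk M W 14 f112 := chT_fk (n := 14) (a := 0) o13 (List.mem_of_getElem? (i := 1) rfl)
  (by norm_num) (by norm_num) (g13 M) t112

theorem k113 : Fk M W 14 f113 := chT_fk (n := 14) (a := 0) o13 (List.mem_of_getElem? (i := 0) rfl)
  (by norm_num) (by norm_num) (g13 M) t113

theorem g18 : ∀ u, Gd (M.cg 14 (W 18).k) (sy M W 18 bl18) (gS S18 u) :=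
  chBT_spec hW (n := 14) (L := L18) (fs_cons (fl_cons (by norm_num) (k33 M) (fl_cons (by norm_num) (k34 M) (fl_cons (by norm_num) (k35 M) (fl_cons (by norm_num) (k36 M) (fl_cons (by norm_num) (k37 M) (fl_cons (by norm_num) (k41 M) (fl_cons (by norm_num) (k42 M) (fl_cons (by norm_num) (k43 M) (fl_cons (by norm_num) (k48 M) (fl_cons (by norm_num) (k94 M) (fl_cons (by norm_num) (k95 M) (fl_cons (by norm_num) (k96 M) (fl_cons (by norm_num) (k101 M) (fl_cons (by norm_num) (k102 M) (fl_cons (by norm_num) (k103 M) (fl_cons (by norm_num) (k104 M) fl_nil))))))))))))))))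
    (fs_cons (fl_cons (by norm_num) (k105 M) (fl_cons (by norm_num) (k106 M) (fl_cons (by norm_num) (k107 M) (fl_cons (by norm_num) (k111 M) (fl_cons (by norm_num) (k112 M) (fl_cons (by norm_num) (k113 M) (fl_cons (by norm_num) (k114 M) (fl_cons (by norm_num) (k130 M) (fl_cons (by norm_num) (k131 M) (fl_cons (by norm_num) (k132 M) (fl_cons (by norm_num) (k283 M) (fl_cons (by norm_num) (k287 M) (fl_cons (by norm_num) (k288 M) fl_nil)))))))))))))
    fs_nil)) (by norm_num) o18 b18

theorem k133 : Fk M W 14 f133 := chT_fk (n := 14) (a := 0) o18 (List.mem_of_getElem? (i := 2) rfl)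
  (by norm_num) (by norm_num) (g18 M) t133

theorem k134 : Fk M W 14 f134 := chT_fk (n := 14) (a := 0) o18 (List.mem_of_getElem? (i := 1) rfl)
  (by norm_num) (by norm_num) (g18 M) t134

theorem k120 : Fk M W 14 f120 := ckX_fk hW (L := [[f33, f34, f35]])
  (fs_cons (fl_cons (by norm_num) (k33 M) (fl_cons (by norm_num) (k34 M) (fl_cons (by norm_num) (k35 M) fl_nil)))
    fs_nil) (by norm_num) x120

theorem k238 : Fk M W 14 f238 := ckC_fk (L := [[f35, f120]])
  (fs_cons (fl_cons (by norm_num) (k35 M) (fl_cons (by norm_num) (k120 M) fl_nil))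
    fs_nil) (by norm_num) c238

theorem k121 : Fk M W 14 f121 := ckX_fk hW (L := [[f33, f34, f35]])
  (fs_cons (fl_cons (by norm_num) (k33 M) (fl_cons (by norm_num) (k34 M) (fl_cons (by norm_num) (k35 M) fl_nil)))
    fs_nil) (by norm_num) x121

theorem g14 : ∀ u, Gd (M.cg 14 (W 14).k) (sy M W 14 bl14) (gS S14 u) :=
  chBT_spec hW (n := 14) (L := L14) (fs_cons (fl_cons (by norm_num) (k22 M) (fl_cons (by norm_num) (k23 M) (fl_cons (by norm_num) (k27 M) (fl_cons (by norm_num) (k32 M) (fl_cons (by norm_num) (k38 M) (fl_cons (by norm_num) (k97 M) (fl_cons (by norm_num) (k98 M) (fl_cons (by norm_num) (k101 M) (fl_cons (by norm_num) (k102 M) (fl_cons (by norm_num) (k103 M) (fl_cons (by norm_num) (k104 M) (fl_cons (by norm_num) (k121 M) (fl_cons (by norm_num) (k238 M) fl_nil)))))))))))))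
    fs_nil) (by norm_num) o14 b14

theorem k40 : Fk M W 14 f40 := chT_fk (n := 14) (a := 0) o14 (List.mem_of_getElem? (i := 5) rfl)
  (by norm_num) (by norm_num) (g14 M) t40

theorem k136 : Fk M W 14 f136 := chT_fk (n := 14) (a := 0) o18 (List.mem_of_getElem? (i := 6) rfl)
  (by norm_num) (by norm_num) (g18 M) t136

theorem k115 : Fk M W 14 f115 := chT_fk (n := 14) (a := 0) o18 (List.mem_of_getElem? (i := 5) rfl)
  (by norm_num) (by norm_num) (g18 M) t115

theorem k275 : Fk M W 14 f275 := ckC_fk (L := [[f120, f115]])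
  (fs_cons (fl_cons (by norm_num) (k120 M) (fl_cons (by norm_num) (k115 M) fl_nil))
    fs_nil) (by norm_num) c275

theorem k116 : Fk M W 14 f116 := chT_fk (n := 14) (a := 0) o18 (List.mem_of_getElem? (i := 4) rfl)
  (by norm_num) (by norm_num) (g18 M) t116

theorem k276 : Fk M W 14 f276 := ckC_fk (L := [[f120, f116]])
  (fs_cons (fl_cons (by norm_num) (k120 M) (fl_cons (by norm_num) (k116 M) fl_nil))
    fs_nil) (by norm_num) c276

theorem k284 : Fk M W 14 f284 := ckC_fk (L := [[f131, f133]])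
  (fs_cons (fl_cons (by norm_num) (k131 M) (fl_cons (by norm_num) (k133 M) fl_nil))
    fs_nil) (by norm_num) c284

theorem k58 : Fk M W 14 f58 := chT_fk (n := 14) (a := 0) o18 (List.mem_of_getElem? (i := 9) rfl)
  (by norm_num) (by norm_num) (g18 M) t58

theorem k59 : Fk M W 14 f59 := chT_fk (n := 14) (a := 0) o18 (List.mem_of_getElem? (i := 8) rfl)
  (by norm_num) (by norm_num) (g18 M) t59

theorem k60 : Fk M W 14 f60 := chT_fk (n := 14) (a := 0) o18 (List.mem_of_getElem? (i := 7) rfl)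
  (by norm_num) (by norm_num) (g18 M) t60

theorem k285 : Fk M W 14 f285 := ckC_fk (L := [[f131, f136]])
  (fs_cons (fl_cons (by norm_num) (k131 M) (fl_cons (by norm_num) (k136 M) fl_nil))
    fs_nil) (by norm_num) c285

theorem k153 : Fk M W 14 f153 := ckX_fk hW (L := [[f58, f59, f60, f275, f276, f284, f285]])
  (fs_cons (fl_cons (by norm_num) (k58 M) (fl_cons (by norm_num) (k59 M) (fl_cons (by norm_num) (k60 M) (fl_cons (by norm_num) (k275 M) (fl_cons (by norm_num) (k276 M) (fl_cons (by norm_num) (k284 M) (fl_cons (by norm_num) (k285 M) fl_nil)))))))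
    fs_nil) (by norm_num) x153

theorem k250 : Fk M W 14 f250 := ckC_fk (L := [[f60, f153]])
  (fs_cons (fl_cons (by norm_num) (k60 M) (fl_cons (by norm_num) (k153 M) fl_nil))
    fs_nil) (by norm_num) c250

theorem k118 : Fk M W 14 f118 := chT_fk (n := 14) (a := 0) o14 (List.mem_of_getElem? (i := 0) rfl)
  (by norm_num) (by norm_num) (g14 M) t118

theorem k119 : Fk M W 14 f119 := chT_fk (n := 14) (a := 0) o14 (List.mem_of_getElem? (i := 1) rfl)
  (by norm_num) (by norm_num) (g14 M) t119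

theorem k289 : Fk M W 14 f289 := ckC_fk (L := [[f132, f134]])
  (fs_cons (fl_cons (by norm_num) (k132 M) (fl_cons (by norm_num) (k134 M) fl_nil))
    fs_nil) (by norm_num) c289

theorem k290 : Fk M W 14 f290 := ckC_fk (L := [[f132, f136]])
  (fs_cons (fl_cons (by norm_num) (k132 M) (fl_cons (by norm_num) (k136 M) fl_nil))
    fs_nil) (by norm_num) c290

theorem k278 : Fk M W 14 f278 := ckC_fk (L := [[f121, f115]])
  (fs_cons (fl_cons (by norm_num) (k121 M) (fl_cons (by norm_num) (k115 M) fl_nil))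
    fs_nil) (by norm_num) c278

theorem k117 : Fk M W 14 f117 := chT_fk (n := 14) (a := 0) o18 (List.mem_of_getElem? (i := 3) rfl)
  (by norm_num) (by norm_num) (g18 M) t117

theorem k279 : Fk M W 14 f279 := ckC_fk (L := [[f121, f117]])
  (fs_cons (fl_cons (by norm_num) (k121 M) (fl_cons (by norm_num) (k117 M) fl_nil))
    fs_nil) (by norm_num) c279

theorem k154 : Fk M W 14 f154 := ckX_fk hW (L := [[f58, f59, f60, f278, f279, f289, f290]])
  (fs_cons (fl_cons (by norm_num) (k58 M) (fl_cons (by norm_num) (k59 M) (fl_cons (by norm_num) (k60 M) (fl_cons (by norm_num) (k278 M) (fl_cons (by norm_num) (k279 M) (fl_cons (by norm_num) (k289 M) (fl_cons (by norm_num) (k290 M) fl_nil)))))))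
    fs_nil) (by norm_num) x154

theorem g16 : ∀ u, Gd (M.cg 14 (W 16).k) (sy M W 16 bl16) (gS S16 u) :=
  chBT_spec hW (n := 14) (L := L16) (fs_cons (fl_cons (by norm_num) (k46 M) (fl_cons (by norm_num) (k48 M) (fl_cons (by norm_num) (k49 M) fl_nil)))
    fs_nil) (by norm_num) o16 b16

theorem k63 : Fk M W 14 f63 := chT_fk (n := 14) (a := 0) o16 (List.mem_of_getElem? (i := 0) rfl)
  (by norm_num) (by norm_num) (g16 M) t63

theorem g20 : ∀ u, Gd (M.cg 14 (W 20).k) (sy M W 20 bl20) (gS S20 u) :=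
  chBT_spec hW (n := 14) (L := L20) (fs_cons (fl_cons (by norm_num) (k3 M) (fl_cons (by norm_num) (k36 M) (fl_cons (by norm_num) (k40 M) (fl_cons (by norm_num) (k63 M) (fl_cons (by norm_num) (k64 M) (fl_cons (by norm_num) (k115 M) (fl_cons (by norm_num) (k118 M) (fl_cons (by norm_num) (k119 M) (fl_cons (by norm_num) (k129 M) (fl_cons (by norm_num) (k130 M) (fl_cons (by norm_num) (k133 M) (fl_cons (by norm_num) (k134 M) (fl_cons (by norm_num) (k136 M) (fl_cons (by norm_num) (k154 M) (fl_cons (by norm_num) (k250 M) fl_nil)))))))))))))))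
    fs_nil) (by norm_num) o20 b20

theorem k4 : Fk M W 14 f4 := chT_fk (n := 14) (a := 0) o20 (List.mem_of_getElem? (i := 2) rfl)
  (by norm_num) (by norm_num) (g20 M) t4

theorem k65 : Fk M W 14 f65 := chT_fk (n := 14) (a := 0) o20 (List.mem_of_getElem? (i := 5) rfl)
  (by norm_num) (by norm_num) (g20 M) t65

theorem k66 : Fk M W 14 f66 := chT_fk (n := 14) (a := 0) o20 (List.mem_of_getElem? (i := 6) rfl)
  (by norm_num) (by norm_num) (g20 M) t66

theorem g21 : ∀ u, Gd (M.cg 14 (W 21).k) (sy M W 21 bl21) (gS S21 u) :=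
  chBT_spec hW (n := 14) (L := L21) (fs_cons (fl_cons (by norm_num) (k63 M) (fl_cons (by norm_num) (k65 M) (fl_cons (by norm_num) (k66 M) fl_nil)))
    fs_nil) (by norm_num) o21 b21

theorem k5 : Fk M W 14 f5 := chT_fk (n := 14) (a := 0) o21 (List.mem_of_getElem? (i := 1) rfl)
  (by norm_num) (by norm_num) (g21 M) t5

theorem k277 : Fk M W 14 f277 := ckC_fk (L := [[f120, f121]])
  (fs_cons (fl_cons (by norm_num) (k120 M) (fl_cons (by norm_num) (k121 M) fl_nil))
    fs_nil) (by norm_num) c277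

theorem k280 : Fk M W 14 f280 := ckC_fk (L := [[f121, f120]])
  (fs_cons (fl_cons (by norm_num) (k121 M) (fl_cons (by norm_num) (k120 M) fl_nil))
    fs_nil) (by norm_num) c280

theorem k281 : Fk M W 14 f281 := ckC_fk (L := [[f280, f121]])
  (fs_cons (fl_cons (by norm_num) (k280 M) (fl_cons (by norm_num) (k121 M) fl_nil))
    fs_nil) (by norm_num) c281

theorem k39 : Fk M W 14 f39 := chT_fk (n := 14) (a := 0) o14 (List.mem_of_getElem? (i := 4) rfl)
  (by norm_num) (by norm_num) (g14 M) t39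

theorem k44 : Fk M W 14 f44 := chT_fk (n := 14) (a := 0) o14 (List.mem_of_getElem? (i := 3) rfl)
  (by norm_num) (by norm_num) (g14 M) t44

theorem k45 : Fk M W 14 f45 := chT_fk (n := 14) (a := 0) o14 (List.mem_of_getElem? (i := 2) rfl)
  (by norm_num) (by norm_num) (g14 M) t45

theorem g17 : ∀ u, Gd (M.cg 14 (W 17).k) (sy M W 17 bl17) (gS S17 u) :=
  chBT_spec hW (n := 14) (L := L17) (fs_cons (fl_cons (by norm_num) (k33 M) (fl_cons (by norm_num) (k34 M) (fl_cons (by norm_num) (k35 M) (fl_cons (by norm_num) (k39 M) (fl_cons (by norm_num) (k41 M) (fl_cons (by norm_num) (k42 M) (fl_cons (by norm_num) (k43 M) (fl_cons (by norm_num) (k44 M) (fl_cons (by norm_num) (k45 M) (fl_cons (by norm_num) (k94 M) (fl_cons (by norm_num) (k95 M) (fl_cons (by norm_num) (k96 M) (fl_cons (by norm_num) (k101 M) (fl_cons (by norm_num) (k102 M) (fl_cons (by norm_num) (k103 M) (fl_cons (by norm_num) (k105 M) fl_nil))))))))))))))))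
    (fs_cons (fl_cons (by norm_num) (k106 M) (fl_cons (by norm_num) (k107 M) (fl_cons (by norm_num) (k111 M) (fl_cons (by norm_num) (k112 M) (fl_cons (by norm_num) (k113 M) (fl_cons (by norm_num) (k114 M) (fl_cons (by norm_num) (k119 M) (fl_cons (by norm_num) (k120 M) (fl_cons (by norm_num) (k121 M) (fl_cons (by norm_num) (k277 M) (fl_cons (by norm_num) (k280 M) (fl_cons (by norm_num) (k281 M) fl_nil))))))))))))
    fs_nil)) (by norm_num) o17 b17

theorem k128 : Fk M W 14 f128 := chT_fk (n := 14) (a := 0) o17 (List.mem_of_getElem? (i := 3) rfl)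
  (by norm_num) (by norm_num) (g17 M) t128

theorem k135 : Fk M W 14 f135 := chT_fk (n := 14) (a := 0) o18 (List.mem_of_getElem? (i := 0) rfl)
  (by norm_num) (by norm_num) (g18 M) t135

theorem k152 : Fk M W 14 f152 := chT_fk (n := 14) (a := 0) o20 (List.mem_of_getElem? (i := 1) rfl)
  (by norm_num) (by norm_num) (g20 M) t152

theorem k302 : Fk M W 14 f302 := ckC_fk (L := [[f153, f154]])
  (fs_cons (fl_cons (by norm_num) (k153 M) (fl_cons (by norm_num) (k154 M) fl_nil))
    fs_nil) (by norm_num) c302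

theorem k306 : Fk M W 14 f306 := ckC_fk (L := [[f154, f153]])
  (fs_cons (fl_cons (by norm_num) (k154 M) (fl_cons (by norm_num) (k153 M) fl_nil))
    fs_nil) (by norm_num) c306

theorem k307 : Fk M W 14 f307 := ckC_fk (L := [[f306, f154]])
  (fs_cons (fl_cons (by norm_num) (k306 M) (fl_cons (by norm_num) (k154 M) fl_nil))
    fs_nil) (by norm_num) c307

theorem k50 : Fk M W 14 f50 := chT_fk (n := 14) (a := 0) o17 (List.mem_of_getElem? (i := 9) rfl)
  (by norm_num) (by norm_num) (g17 M) t50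

theorem k53 : Fk M W 14 f53 := chT_fk (n := 14) (a := 0) o20 (List.mem_of_getElem? (i := 4) rfl)
  (by norm_num) (by norm_num) (g20 M) t53

theorem k54 : Fk M W 14 f54 := chT_fk (n := 14) (a := 0) o20 (List.mem_of_getElem? (i := 3) rfl)
  (by norm_num) (by norm_num) (g20 M) t54

theorem k51 : Fk M W 14 f51 := chT_fk (n := 14) (a := 0) o17 (List.mem_of_getElem? (i := 8) rfl)
  (by norm_num) (by norm_num) (g17 M) t51

theorem k52 : Fk M W 14 f52 := chT_fk (n := 14) (a := 0) o17 (List.mem_of_getElem? (i := 7) rfl)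
  (by norm_num) (by norm_num) (g17 M) t52

theorem k122 : Fk M W 14 f122 := chT_fk (n := 14) (a := 0) o17 (List.mem_of_getElem? (i := 2) rfl)
  (by norm_num) (by norm_num) (g17 M) t122

theorem k123 : Fk M W 14 f123 := chT_fk (n := 14) (a := 0) o17 (List.mem_of_getElem? (i := 1) rfl)
  (by norm_num) (by norm_num) (g17 M) t123

theorem k124 : Fk M W 14 f124 := chT_fk (n := 14) (a := 0) o17 (List.mem_of_getElem? (i := 0) rfl)
  (by norm_num) (by norm_num) (g17 M) t124

theorem k125 : Fk M W 14 f125 := chT_fk (n := 14) (a := 0) o17 (List.mem_of_getElem? (i := 6) rfl)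
  (by norm_num) (by norm_num) (g17 M) t125

theorem k126 : Fk M W 14 f126 := chT_fk (n := 14) (a := 0) o17 (List.mem_of_getElem? (i := 5) rfl)
  (by norm_num) (by norm_num) (g17 M) t126

theorem k127 : Fk M W 14 f127 := chT_fk (n := 14) (a := 0) o17 (List.mem_of_getElem? (i := 4) rfl)
  (by norm_num) (by norm_num) (g17 M) t127

theorem g23 : ∀ u, Gd (M.cg 12 (W 23).k) (sy M W 23 bl23) (gS S23 u) :=
  chBT_spec hW (n := 12) (L := L23) (fs_cons (fl_cons (by norm_num) (k50 M) (fl_cons (by norm_num) (k51 M) (fl_cons (by norm_num) (k52 M) (fl_cons (by norm_num) (k53 M) (fl_cons (by norm_num) (k54 M) (fl_cons (by norm_num) (k58 M) (fl_cons (by norm_num) (k59 M) (fl_cons (by norm_num) (k60 M) (fl_cons (by norm_num) (k65 M) (fl_cons (by norm_num) (k115 M) (fl_cons (by norm_num) (k116 M) (fl_cons (by norm_num) (k117 M) (fl_cons (by norm_num) (k122 M) (fl_cons (by norm_num) (k123 M) (fl_cons (by norm_num) (k124 M) (fl_cons (by norm_num) (k125 M) fl_nil))))))))))))))))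
    (fs_cons (fl_cons (by norm_num) (k126 M) (fl_cons (by norm_num) (k127 M) (fl_cons (by norm_num) (k128 M) (fl_cons (by norm_num) (k133 M) (fl_cons (by norm_num) (k134 M) (fl_cons (by norm_num) (k135 M) (fl_cons (by norm_num) (k136 M) (fl_cons (by norm_num) (k152 M) (fl_cons (by norm_num) (k153 M) (fl_cons (by norm_num) (k154 M) (fl_cons (by norm_num) (k302 M) (fl_cons (by norm_num) (k306 M) (fl_cons (by norm_num) (k307 M) fl_nil)))))))))))))
    fs_nil)) (by norm_num) o23 b23

theorem k77 : Fk M W 12 f77 := chT_fk (n := 12) (a := 0) o23 (List.mem_of_getElem? (i := 7) rfl)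
  (by norm_num) (by norm_num) (g23 M) t77

theorem k137 : Fk M W 12 f137 := chT_fk (n := 12) (a := 0) o23 (List.mem_of_getElem? (i := 5) rfl)
  (by norm_num) (by norm_num) (g23 M) t137

theorem k282 : Fk M W 14 f282 := ckC_fk (L := [[f131, f127]])
  (fs_cons (fl_cons (by norm_num) (k131 M) (fl_cons (by norm_num) (k127 M) fl_nil))
    fs_nil) (by norm_num) c282

theorem k142 : Fk M W 14 f142 := ckX_fk hW (L := [[f50, f51, f52, f282]])
  (fs_cons (fl_cons (by norm_num) (k50 M) (fl_cons (by norm_num) (k51 M) (fl_cons (by norm_num) (k52 M) (fl_cons (by norm_num) (k282 M) fl_nil))))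
    fs_nil) (by norm_num) x142

theorem k291 : Fk M W 12 f291 := ckC_fk (L := [[f142, f137]])
  (fs_cons (fl_cons (by norm_num) (k142 M) (fl_cons (by norm_num) (k137 M) fl_nil))
    fs_nil) (by norm_num) c291

theorem k138 : Fk M W 12 f138 := chT_fk (n := 12) (a := 0) o23 (List.mem_of_getElem? (i := 4) rfl)
  (by norm_num) (by norm_num) (g23 M) t138

theorem k292 : Fk M W 12 f292 := ckC_fk (L := [[f142, f138]])
  (fs_cons (fl_cons (by norm_num) (k142 M) (fl_cons (by norm_num) (k138 M) fl_nil))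
    fs_nil) (by norm_num) c292

theorem k75 : Fk M W 12 f75 := chT_fk (n := 12) (a := 0) o23 (List.mem_of_getElem? (i := 9) rfl)
  (by norm_num) (by norm_num) (g23 M) t75

theorem k76 : Fk M W 12 f76 := chT_fk (n := 12) (a := 0) o23 (List.mem_of_getElem? (i := 8) rfl)
  (by norm_num) (by norm_num) (g23 M) t76

theorem k155 : Fk M W 12 f155 := chT_fk (n := 12) (a := 0) o23 (List.mem_of_getElem? (i := 2) rfl)
  (by norm_num) (by norm_num) (g23 M) t155

theorem k303 : Fk M W 12 f303 := ckC_fk (L := [[f153, f155]])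
  (fs_cons (fl_cons (by norm_num) (k153 M) (fl_cons (by norm_num) (k155 M) fl_nil))
    fs_nil) (by norm_num) c303

theorem k158 : Fk M W 12 f158 := chT_fk (n := 12) (a := 0) o23 (List.mem_of_getElem? (i := 6) rfl)
  (by norm_num) (by norm_num) (g23 M) t158

theorem k304 : Fk M W 12 f304 := ckC_fk (L := [[f153, f158]])
  (fs_cons (fl_cons (by norm_num) (k153 M) (fl_cons (by norm_num) (k158 M) fl_nil))
    fs_nil) (by norm_num) c304

theorem k165 : Fk M W 12 f165 := ckX_fk hW (L := [[f75, f76, f77, f291, f292, f303, f304]])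
  (fs_cons (fl_cons (by norm_num) (k75 M) (fl_cons (by norm_num) (k76 M) (fl_cons (by norm_num) (k77 M) (fl_cons (by norm_num) (k291 M) (fl_cons (by norm_num) (k292 M) (fl_cons (by norm_num) (k303 M) (fl_cons (by norm_num) (k304 M) fl_nil)))))))
    fs_nil) (by norm_num) x165

theorem k256 : Fk M W 12 f256 := ckC_fk (L := [[f77, f165]])
  (fs_cons (fl_cons (by norm_num) (k77 M) (fl_cons (by norm_num) (k165 M) fl_nil))
    fs_nil) (by norm_num) c256

theorem k286 : Fk M W 14 f286 := ckC_fk (L := [[f132, f126]])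
  (fs_cons (fl_cons (by norm_num) (k132 M) (fl_cons (by norm_num) (k126 M) fl_nil))
    fs_nil) (by norm_num) c286

theorem k143 : Fk M W 14 f143 := ckX_fk hW (L := [[f50, f51, f52, f286]])
  (fs_cons (fl_cons (by norm_num) (k50 M) (fl_cons (by norm_num) (k51 M) (fl_cons (by norm_num) (k52 M) (fl_cons (by norm_num) (k286 M) fl_nil))))
    fs_nil) (by norm_num) x143

theorem k295 : Fk M W 12 f295 := ckC_fk (L := [[f143, f137]])
  (fs_cons (fl_cons (by norm_num) (k143 M) (fl_cons (by norm_num) (k137 M) fl_nil))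
    fs_nil) (by norm_num) c295

theorem k139 : Fk M W 12 f139 := chT_fk (n := 12) (a := 0) o23 (List.mem_of_getElem? (i := 3) rfl)
  (by norm_num) (by norm_num) (g23 M) t139

theorem k296 : Fk M W 12 f296 := ckC_fk (L := [[f143, f139]])
  (fs_cons (fl_cons (by norm_num) (k143 M) (fl_cons (by norm_num) (k139 M) fl_nil))
    fs_nil) (by norm_num) c296

theorem k156 : Fk M W 12 f156 := chT_fk (n := 12) (a := 0) o23 (List.mem_of_getElem? (i := 1) rfl)
  (by norm_num) (by norm_num) (g23 M) t156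

theorem k308 : Fk M W 12 f308 := ckC_fk (L := [[f154, f156]])
  (fs_cons (fl_cons (by norm_num) (k154 M) (fl_cons (by norm_num) (k156 M) fl_nil))
    fs_nil) (by norm_num) c308

theorem k309 : Fk M W 12 f309 := ckC_fk (L := [[f154, f158]])
  (fs_cons (fl_cons (by norm_num) (k154 M) (fl_cons (by norm_num) (k158 M) fl_nil))
    fs_nil) (by norm_num) c309

theorem k166 : Fk M W 12 f166 := ckX_fk hW (L := [[f75, f76, f77, f295, f296, f308, f309]])
  (fs_cons (fl_cons (by norm_num) (k75 M) (fl_cons (by norm_num) (k76 M) (fl_cons (by norm_num) (k77 M) (fl_cons (by norm_num) (k295 M) (fl_cons (by norm_num) (k296 M) (fl_cons (by norm_num) (k308 M) (fl_cons (by norm_num) (k309 M) fl_nil)))))))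
    fs_nil) (by norm_num) x166

theorem k240 : Fk M W 14 f240 := ckC_fk (L := [[f38, f39]])
  (fs_cons (fl_cons (by norm_num) (k38 M) (fl_cons (by norm_num) (k39 M) fl_nil))
    fs_nil) (by norm_num) c240

theorem k241 : Fk M W 14 f241 := ckC_fk (L := [[f38, f40]])
  (fs_cons (fl_cons (by norm_num) (k38 M) (fl_cons (by norm_num) (k40 M) fl_nil))
    fs_nil) (by norm_num) c241

theorem k243 : Fk M W 14 f243 := ckC_fk (L := [[f47, f45]])
  (fs_cons (fl_cons (by norm_num) (k47 M) (fl_cons (by norm_num) (k45 M) fl_nil))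
    fs_nil) (by norm_num) c243

theorem k55 : Fk M W 14 f55 := ckX_fk hW (L := [[f240, f241, f243]])
  (fs_cons (fl_cons (by norm_num) (k240 M) (fl_cons (by norm_num) (k241 M) (fl_cons (by norm_num) (k243 M) fl_nil)))
    fs_nil) (by norm_num) x55

theorem k246 : Fk M W 14 f246 := ckC_fk (L := [[f52, f142]])
  (fs_cons (fl_cons (by norm_num) (k52 M) (fl_cons (by norm_num) (k142 M) fl_nil))
    fs_nil) (by norm_num) c246

theorem g19 : ∀ u, Gd (M.cg 14 (W 19).k) (sy M W 19 bl19) (gS S19 u) :=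
  chBT_spec hW (n := 14) (L := L19) (fs_cons (fl_cons (by norm_num) (k39 M) (fl_cons (by norm_num) (k40 M) (fl_cons (by norm_num) (k44 M) (fl_cons (by norm_num) (k49 M) (fl_cons (by norm_num) (k55 M) (fl_cons (by norm_num) (k118 M) (fl_cons (by norm_num) (k119 M) (fl_cons (by norm_num) (k122 M) (fl_cons (by norm_num) (k123 M) (fl_cons (by norm_num) (k124 M) (fl_cons (by norm_num) (k125 M) (fl_cons (by norm_num) (k126 M) (fl_cons (by norm_num) (k129 M) (fl_cons (by norm_num) (k130 M) (fl_cons (by norm_num) (k143 M) (fl_cons (by norm_num) (k246 M) fl_nil))))))))))))))))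
    fs_nil) (by norm_num) o19 b19

theorem k140 : Fk M W 14 f140 := chT_fk (n := 14) (a := 0) o19 (List.mem_of_getElem? (i := 0) rfl)
  (by norm_num) (by norm_num) (g19 M) t140

theorem k141 : Fk M W 14 f141 := chT_fk (n := 14) (a := 0) o19 (List.mem_of_getElem? (i := 1) rfl)
  (by norm_num) (by norm_num) (g19 M) t141

theorem k80 : Fk M W 14 f80 := chT_fk (n := 14) (a := 0) o21 (List.mem_of_getElem? (i := 0) rfl)
  (by norm_num) (by norm_num) (g21 M) t80

theorem k252 : Fk M W 14 f252 := ckC_fk (L := [[f64, f65]])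
  (fs_cons (fl_cons (by norm_num) (k64 M) (fl_cons (by norm_num) (k65 M) fl_nil))
    fs_nil) (by norm_num) c252

theorem k253 : Fk M W 14 f253 := ckC_fk (L := [[f64, f66]])
  (fs_cons (fl_cons (by norm_num) (k64 M) (fl_cons (by norm_num) (k66 M) fl_nil))
    fs_nil) (by norm_num) c253

theorem k247 : Fk M W 14 f247 := ckC_fk (L := [[f55, f54]])
  (fs_cons (fl_cons (by norm_num) (k55 M) (fl_cons (by norm_num) (k54 M) fl_nil))
    fs_nil) (by norm_num) c247

theorem k81 : Fk M W 14 f81 := ckX_fk hW (L := [[f247, f252, f253]])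
  (fs_cons (fl_cons (by norm_num) (k247 M) (fl_cons (by norm_num) (k252 M) (fl_cons (by norm_num) (k253 M) fl_nil)))
    fs_nil) (by norm_num) x81

theorem k151 : Fk M W 14 f151 := chT_fk (n := 14) (a := 0) o20 (List.mem_of_getElem? (i := 0) rfl)
  (by norm_num) (by norm_num) (g20 M) t151

theorem k57 : Fk M W 14 f57 := chT_fk (n := 14) (a := 0) o19 (List.mem_of_getElem? (i := 5) rfl)
  (by norm_num) (by norm_num) (g19 M) t57

theorem k157 : Fk M W 12 f157 := chT_fk (n := 12) (a := 0) o23 (List.mem_of_getElem? (i := 0) rfl)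
  (by norm_num) (by norm_num) (g23 M) t157

theorem g25 : ∀ u, Gd (M.cg 12 (W 25).k) (sy M W 25 bl25) (gS S25 u) :=
  chBT_spec hW (n := 12) (L := L25) (fs_cons (fl_cons (by norm_num) (k4 M) (fl_cons (by norm_num) (k5 M) (fl_cons (by norm_num) (k53 M) (fl_cons (by norm_num) (k57 M) (fl_cons (by norm_num) (k80 M) (fl_cons (by norm_num) (k81 M) (fl_cons (by norm_num) (k137 M) (fl_cons (by norm_num) (k140 M) (fl_cons (by norm_num) (k141 M) (fl_cons (by norm_num) (k151 M) (fl_cons (by norm_num) (k152 M) (fl_cons (by norm_num) (k155 M) (fl_cons (by norm_num) (k156 M) (fl_cons (by norm_num) (k157 M) (fl_cons (by norm_num) (k158 M) (fl_cons (by norm_num) (k166 M) fl_nil))))))))))))))))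
    (fs_cons (fl_cons (by norm_num) (k256 M) fl_nil)
    fs_nil)) (by norm_num) o25 b25

theorem k6 : Fk M W 12 f6 := chT_fk (n := 12) (a := 0) o25 (List.mem_of_getElem? (i := 2) rfl)
  (by norm_num) (by norm_num) (g25 M) t6

theorem k56 : Fk M W 14 f56 := chT_fk (n := 14) (a := 0) o19 (List.mem_of_getElem? (i := 4) rfl)
  (by norm_num) (by norm_num) (g19 M) t56

theorem k61 : Fk M W 14 f61 := chT_fk (n := 14) (a := 0) o19 (List.mem_of_getElem? (i := 3) rfl)
  (by norm_num) (by norm_num) (g19 M) t61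

theorem k62 : Fk M W 14 f62 := chT_fk (n := 14) (a := 0) o19 (List.mem_of_getElem? (i := 2) rfl)
  (by norm_num) (by norm_num) (g19 M) t62

theorem k293 : Fk M W 14 f293 := ckC_fk (L := [[f142, f143]])
  (fs_cons (fl_cons (by norm_num) (k142 M) (fl_cons (by norm_num) (k143 M) fl_nil))
    fs_nil) (by norm_num) c293

theorem k297 : Fk M W 14 f297 := ckC_fk (L := [[f143, f142]])
  (fs_cons (fl_cons (by norm_num) (k143 M) (fl_cons (by norm_num) (k142 M) fl_nil))
    fs_nil) (by norm_num) c297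

theorem k298 : Fk M W 14 f298 := ckC_fk (L := [[f297, f143]])
  (fs_cons (fl_cons (by norm_num) (k297 M) (fl_cons (by norm_num) (k143 M) fl_nil))
    fs_nil) (by norm_num) c298

theorem g22 : ∀ u, Gd (M.cg 14 (W 22).k) (sy M W 22 bl22) (gS S22 u) :=
  chBT_spec hW (n := 14) (L := L22) (fs_cons (fl_cons (by norm_num) (k50 M) (fl_cons (by norm_num) (k51 M) (fl_cons (by norm_num) (k52 M) (fl_cons (by norm_num) (k56 M) (fl_cons (by norm_num) (k58 M) (fl_cons (by norm_num) (k59 M) (fl_cons (by norm_num) (k60 M) (fl_cons (by norm_num) (k61 M) (fl_cons (by norm_num) (k62 M) (fl_cons (by norm_num) (k115 M) (fl_cons (by norm_num) (k116 M) (fl_cons (by norm_num) (k117 M) (fl_cons (by norm_num) (k122 M) (fl_cons (by norm_num) (k123 M) (fl_cons (by norm_num) (k124 M) (fl_cons (by norm_num) (k125 M) fl_nil))))))))))))))))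
    (fs_cons (fl_cons (by norm_num) (k126 M) (fl_cons (by norm_num) (k127 M) (fl_cons (by norm_num) (k128 M) (fl_cons (by norm_num) (k133 M) (fl_cons (by norm_num) (k134 M) (fl_cons (by norm_num) (k135 M) (fl_cons (by norm_num) (k136 M) (fl_cons (by norm_num) (k141 M) (fl_cons (by norm_num) (k142 M) (fl_cons (by norm_num) (k143 M) (fl_cons (by norm_num) (k293 M) (fl_cons (by norm_num) (k297 M) (fl_cons (by norm_num) (k298 M) fl_nil)))))))))))))
    fs_nil)) (by norm_num) o22 b22

theorem k67 : Fk M W 12 f67 := chT_fk (n := 12) (a := 2) o22 (List.mem_of_getElem? (i := 9) rfl)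
  (by norm_num) (by norm_num) (g22 M) t67

theorem k68 : Fk M W 12 f68 := chT_fk (n := 12) (a := 2) o22 (List.mem_of_getElem? (i := 8) rfl)
  (by norm_num) (by norm_num) (g22 M) t68

theorem k69 : Fk M W 12 f69 := chT_fk (n := 12) (a := 2) o22 (List.mem_of_getElem? (i := 7) rfl)
  (by norm_num) (by norm_num) (g22 M) t69

theorem k70 : Fk M W 12 f70 := chT_fk (n := 12) (a := 0) o25 (List.mem_of_getElem? (i := 4) rfl)
  (by norm_num) (by norm_num) (g25 M) t70

theorem k71 : Fk M W 12 f71 := chT_fk (n := 12) (a := 0) o25 (List.mem_of_getElem? (i := 3) rfl)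
  (by norm_num) (by norm_num) (g25 M) t71

theorem k248 : Fk M W 14 f248 := ckC_fk (L := [[f55, f56]])
  (fs_cons (fl_cons (by norm_num) (k55 M) (fl_cons (by norm_num) (k56 M) fl_nil))
    fs_nil) (by norm_num) c248

theorem k249 : Fk M W 14 f249 := ckC_fk (L := [[f55, f57]])
  (fs_cons (fl_cons (by norm_num) (k55 M) (fl_cons (by norm_num) (k57 M) fl_nil))
    fs_nil) (by norm_num) c249

theorem k251 : Fk M W 14 f251 := ckC_fk (L := [[f64, f62]])
  (fs_cons (fl_cons (by norm_num) (k64 M) (fl_cons (by norm_num) (k62 M) fl_nil))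
    fs_nil) (by norm_num) c251

theorem k72 : Fk M W 14 f72 := ckX_fk hW (L := [[f248, f249, f251]])
  (fs_cons (fl_cons (by norm_num) (k248 M) (fl_cons (by norm_num) (k249 M) (fl_cons (by norm_num) (k251 M) fl_nil)))
    fs_nil) (by norm_num) x72

theorem k147 : Fk M W 12 f147 := chT_fk (n := 12) (a := 2) o22 (List.mem_of_getElem? (i := 6) rfl)
  (by norm_num) (by norm_num) (g22 M) t147

theorem k299 : Fk M W 12 f299 := ckC_fk (L := [[f143, f147]])
  (fs_cons (fl_cons (by norm_num) (k143 M) (fl_cons (by norm_num) (k147 M) fl_nil))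
    fs_nil) (by norm_num) c299

theorem k148 : Fk M W 12 f148 := chT_fk (n := 12) (a := 2) o22 (List.mem_of_getElem? (i := 5) rfl)
  (by norm_num) (by norm_num) (g22 M) t148

theorem k305 : Fk M W 12 f305 := ckC_fk (L := [[f154, f148]])
  (fs_cons (fl_cons (by norm_num) (k154 M) (fl_cons (by norm_num) (k148 M) fl_nil))
    fs_nil) (by norm_num) c305

theorem k162 : Fk M W 12 f162 := ckX_fk hW (L := [[f67, f68, f69, f299, f305]])
  (fs_cons (fl_cons (by norm_num) (k67 M) (fl_cons (by norm_num) (k68 M) (fl_cons (by norm_num) (k69 M) (fl_cons (by norm_num) (k299 M) (fl_cons (by norm_num) (k305 M) fl_nil)))))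
    fs_nil) (by norm_num) x162

theorem k144 : Fk M W 12 f144 := chT_fk (n := 12) (a := 2) o22 (List.mem_of_getElem? (i := 2) rfl)
  (by norm_num) (by norm_num) (g22 M) t144

theorem k145 : Fk M W 12 f145 := chT_fk (n := 12) (a := 2) o22 (List.mem_of_getElem? (i := 1) rfl)
  (by norm_num) (by norm_num) (g22 M) t145

theorem k146 : Fk M W 12 f146 := chT_fk (n := 12) (a := 2) o22 (List.mem_of_getElem? (i := 0) rfl)
  (by norm_num) (by norm_num) (g22 M) t146

theorem k294 : Fk M W 12 f294 := ckC_fk (L := [[f142, f147]])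
  (fs_cons (fl_cons (by norm_num) (k142 M) (fl_cons (by norm_num) (k147 M) fl_nil))
    fs_nil) (by norm_num) c294

theorem k300 : Fk M W 12 f300 := ckC_fk (L := [[f153, f148]])
  (fs_cons (fl_cons (by norm_num) (k153 M) (fl_cons (by norm_num) (k148 M) fl_nil))
    fs_nil) (by norm_num) c300

theorem k149 : Fk M W 12 f149 := chT_fk (n := 12) (a := 2) o22 (List.mem_of_getElem? (i := 4) rfl)
  (by norm_num) (by norm_num) (g22 M) t149

theorem k301 : Fk M W 12 f301 := ckC_fk (L := [[f153, f149]])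
  (fs_cons (fl_cons (by norm_num) (k153 M) (fl_cons (by norm_num) (k149 M) fl_nil))
    fs_nil) (by norm_num) c301

theorem k161 : Fk M W 12 f161 := ckX_fk hW (L := [[f67, f68, f69, f294, f300, f301]])
  (fs_cons (fl_cons (by norm_num) (k67 M) (fl_cons (by norm_num) (k68 M) (fl_cons (by norm_num) (k69 M) (fl_cons (by norm_num) (k294 M) (fl_cons (by norm_num) (k300 M) (fl_cons (by norm_num) (k301 M) fl_nil))))))
    fs_nil) (by norm_num) x161

theorem k254 : Fk M W 12 f254 := ckC_fk (L := [[f69, f161]])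
  (fs_cons (fl_cons (by norm_num) (k69 M) (fl_cons (by norm_num) (k161 M) fl_nil))
    fs_nil) (by norm_num) c254

theorem g24 : ∀ u, Gd (M.cg 12 (W 24).k) (sy M W 24 bl24) (gS S24 u) :=
  chBT_spec hW (n := 12) (L := L24) (fs_cons (fl_cons (by norm_num) (k56 M) (fl_cons (by norm_num) (k57 M) (fl_cons (by norm_num) (k61 M) (fl_cons (by norm_num) (k66 M) (fl_cons (by norm_num) (k72 M) (fl_cons (by norm_num) (k140 M) (fl_cons (by norm_num) (k141 M) (fl_cons (by norm_num) (k144 M) (fl_cons (by norm_num) (k145 M) (fl_cons (by norm_num) (k146 M) (fl_cons (by norm_num) (k147 M) (fl_cons (by norm_num) (k148 M) (fl_cons (by norm_num) (k151 M) (fl_cons (by norm_num) (k152 M) (fl_cons (by norm_num) (k162 M) (fl_cons (by norm_num) (k254 M) fl_nil))))))))))))))))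
    fs_nil) (by norm_num) o24 b24

theorem k73 : Fk M W 12 f73 := chT_fk (n := 12) (a := 0) o24 (List.mem_of_getElem? (i := 4) rfl)
  (by norm_num) (by norm_num) (g24 M) t73

theorem k74 : Fk M W 12 f74 := chT_fk (n := 12) (a := 0) o24 (List.mem_of_getElem? (i := 5) rfl)
  (by norm_num) (by norm_num) (g24 M) t74

theorem k78 : Fk M W 12 f78 := chT_fk (n := 12) (a := 0) o24 (List.mem_of_getElem? (i := 3) rfl)
  (by norm_num) (by norm_num) (g24 M) t78

theorem k79 : Fk M W 12 f79 := chT_fk (n := 12) (a := 0) o24 (List.mem_of_getElem? (i := 2) rfl)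
  (by norm_num) (by norm_num) (g24 M) t79

theorem k82 : Fk M W 12 f82 := chT_fk (n := 12) (a := 0) o25 (List.mem_of_getElem? (i := 5) rfl)
  (by norm_num) (by norm_num) (g25 M) t82

theorem k83 : Fk M W 12 f83 := chT_fk (n := 12) (a := 0) o25 (List.mem_of_getElem? (i := 6) rfl)
  (by norm_num) (by norm_num) (g25 M) t83

theorem k150 : Fk M W 12 f150 := chT_fk (n := 12) (a := 2) o22 (List.mem_of_getElem? (i := 3) rfl)
  (by norm_num) (by norm_num) (g22 M) t150

theorem k159 : Fk M W 12 f159 := chT_fk (n := 12) (a := 0) o24 (List.mem_of_getElem? (i := 0) rfl)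
  (by norm_num) (by norm_num) (g24 M) t159

theorem k160 : Fk M W 12 f160 := chT_fk (n := 12) (a := 0) o24 (List.mem_of_getElem? (i := 1) rfl)
  (by norm_num) (by norm_num) (g24 M) t160

theorem k163 : Fk M W 12 f163 := chT_fk (n := 12) (a := 0) o25 (List.mem_of_getElem? (i := 0) rfl)
  (by norm_num) (by norm_num) (g25 M) t163

theorem k164 : Fk M W 12 f164 := chT_fk (n := 12) (a := 0) o25 (List.mem_of_getElem? (i := 1) rfl)
  (by norm_num) (by norm_num) (g25 M) t164

theorem k173 : Fk M W 15 f173 := ckC_fk (L := [[f0, f10]])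
  (fs_cons (fl_cons (by norm_num) (k0 M) (fl_cons (by norm_num) (k10 M) fl_nil))
    fs_nil) (by norm_num) c173

theorem k174 : Fk M W 15 f174 := ckC_fk (L := [[f173, f19]])
  (fs_cons (fl_cons (by norm_num) (k173 M) (fl_cons (by norm_num) (k19 M) fl_nil))
    fs_nil) (by norm_num) c174

theorem k175 : Fk M W 14 f175 := ckC_fk (L := [[f174, f44]])
  (fs_cons (fl_cons (by norm_num) (k174 M) (fl_cons (by norm_num) (k44 M) fl_nil))
    fs_nil) (by norm_num) c175

theorem k176 : Fk M W 14 f176 := ckC_fk (L := [[f175, f53]])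
  (fs_cons (fl_cons (by norm_num) (k175 M) (fl_cons (by norm_num) (k53 M) fl_nil))
    fs_nil) (by norm_num) c176

theorem k177 : Fk M W 12 f177 := ckC_fk (L := [[f176, f78]])
  (fs_cons (fl_cons (by norm_num) (k176 M) (fl_cons (by norm_num) (k78 M) fl_nil))
    fs_nil) (by norm_num) c177

theorem k178 : Fk M W 12 f178 := ckC_fk (L := [[f176, f82]])
  (fs_cons (fl_cons (by norm_num) (k176 M) (fl_cons (by norm_num) (k82 M) fl_nil))
    fs_nil) (by norm_num) c178

theorem k179 : Fk M W 14 f179 := ckC_fk (L := [[f175, f56]])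
  (fs_cons (fl_cons (by norm_num) (k175 M) (fl_cons (by norm_num) (k56 M) fl_nil))
    fs_nil) (by norm_num) c179

theorem k180 : Fk M W 12 f180 := ckC_fk (L := [[f179, f70]])
  (fs_cons (fl_cons (by norm_num) (k179 M) (fl_cons (by norm_num) (k70 M) fl_nil))
    fs_nil) (by norm_num) c180

theorem k181 : Fk M W 12 f181 := ckC_fk (L := [[f179, f73]])
  (fs_cons (fl_cons (by norm_num) (k179 M) (fl_cons (by norm_num) (k73 M) fl_nil))
    fs_nil) (by norm_num) c181

theorem k182 : Fk M W 14 f182 := ckC_fk (L := [[f174, f48]])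
  (fs_cons (fl_cons (by norm_num) (k174 M) (fl_cons (by norm_num) (k48 M) fl_nil))
    fs_nil) (by norm_num) c182

theorem k183 : Fk M W 14 f183 := ckC_fk (L := [[f182, f61]])
  (fs_cons (fl_cons (by norm_num) (k182 M) (fl_cons (by norm_num) (k61 M) fl_nil))
    fs_nil) (by norm_num) c183

theorem k184 : Fk M W 12 f184 := ckC_fk (L := [[f183, f70]])
  (fs_cons (fl_cons (by norm_num) (k183 M) (fl_cons (by norm_num) (k70 M) fl_nil))
    fs_nil) (by norm_num) c184

theorem k185 : Fk M W 12 f185 := ckC_fk (L := [[f183, f73]])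
  (fs_cons (fl_cons (by norm_num) (k183 M) (fl_cons (by norm_num) (k73 M) fl_nil))
    fs_nil) (by norm_num) c185

theorem k186 : Fk M W 15 f186 := ckC_fk (L := [[f173, f22]])
  (fs_cons (fl_cons (by norm_num) (k173 M) (fl_cons (by norm_num) (k22 M) fl_nil))
    fs_nil) (by norm_num) c186

theorem k187 : Fk M W 14 f187 := ckC_fk (L := [[f186, f36]])
  (fs_cons (fl_cons (by norm_num) (k186 M) (fl_cons (by norm_num) (k36 M) fl_nil))
    fs_nil) (by norm_num) c187

theorem k188 : Fk M W 14 f188 := ckC_fk (L := [[f187, f61]])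
  (fs_cons (fl_cons (by norm_num) (k187 M) (fl_cons (by norm_num) (k61 M) fl_nil))
    fs_nil) (by norm_num) c188

theorem k189 : Fk M W 12 f189 := ckC_fk (L := [[f188, f70]])
  (fs_cons (fl_cons (by norm_num) (k188 M) (fl_cons (by norm_num) (k70 M) fl_nil))
    fs_nil) (by norm_num) c189

theorem k190 : Fk M W 12 f190 := ckC_fk (L := [[f188, f73]])
  (fs_cons (fl_cons (by norm_num) (k188 M) (fl_cons (by norm_num) (k73 M) fl_nil))
    fs_nil) (by norm_num) c190

theorem k191 : Fk M W 14 f191 := ckC_fk (L := [[f187, f65]])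
  (fs_cons (fl_cons (by norm_num) (k187 M) (fl_cons (by norm_num) (k65 M) fl_nil))
    fs_nil) (by norm_num) c191

theorem k192 : Fk M W 12 f192 := ckC_fk (L := [[f191, f78]])
  (fs_cons (fl_cons (by norm_num) (k191 M) (fl_cons (by norm_num) (k78 M) fl_nil))
    fs_nil) (by norm_num) c192

theorem k193 : Fk M W 14 f193 := ckC_fk (L := [[f186, f39]])
  (fs_cons (fl_cons (by norm_num) (k186 M) (fl_cons (by norm_num) (k39 M) fl_nil))
    fs_nil) (by norm_num) c193

theorem k194 : Fk M W 14 f194 := ckC_fk (L := [[f193, f53]])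
  (fs_cons (fl_cons (by norm_num) (k193 M) (fl_cons (by norm_num) (k53 M) fl_nil))
    fs_nil) (by norm_num) c194

theorem k195 : Fk M W 12 f195 := ckC_fk (L := [[f194, f78]])
  (fs_cons (fl_cons (by norm_num) (k194 M) (fl_cons (by norm_num) (k78 M) fl_nil))
    fs_nil) (by norm_num) c195

theorem k196 : Fk M W 12 f196 := ckC_fk (L := [[f194, f82]])
  (fs_cons (fl_cons (by norm_num) (k194 M) (fl_cons (by norm_num) (k82 M) fl_nil))
    fs_nil) (by norm_num) c196

theorem k197 : Fk M W 14 f197 := ckC_fk (L := [[f193, f56]])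
  (fs_cons (fl_cons (by norm_num) (k193 M) (fl_cons (by norm_num) (k56 M) fl_nil))
    fs_nil) (by norm_num) c197

theorem k198 : Fk M W 12 f198 := ckC_fk (L := [[f197, f70]])
  (fs_cons (fl_cons (by norm_num) (k197 M) (fl_cons (by norm_num) (k70 M) fl_nil))
    fs_nil) (by norm_num) c198

theorem k199 : Fk M W 12 f199 := ckC_fk (L := [[f197, f73]])
  (fs_cons (fl_cons (by norm_num) (k197 M) (fl_cons (by norm_num) (k73 M) fl_nil))
    fs_nil) (by norm_num) c199

theorem k200 : Fk M W 15 f200 := ckC_fk (L := [[f0, f15]])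
  (fs_cons (fl_cons (by norm_num) (k0 M) (fl_cons (by norm_num) (k15 M) fl_nil))
    fs_nil) (by norm_num) c200

theorem k201 : Fk M W 15 f201 := ckC_fk (L := [[f200, f27]])
  (fs_cons (fl_cons (by norm_num) (k200 M) (fl_cons (by norm_num) (k27 M) fl_nil))
    fs_nil) (by norm_num) c201

theorem k202 : Fk M W 14 f202 := ckC_fk (L := [[f201, f36]])
  (fs_cons (fl_cons (by norm_num) (k201 M) (fl_cons (by norm_num) (k36 M) fl_nil))
    fs_nil) (by norm_num) c202

theorem k203 : Fk M W 14 f203 := ckC_fk (L := [[f202, f61]])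
  (fs_cons (fl_cons (by norm_num) (k202 M) (fl_cons (by norm_num) (k61 M) fl_nil))
    fs_nil) (by norm_num) c203

theorem k204 : Fk M W 12 f204 := ckC_fk (L := [[f203, f70]])
  (fs_cons (fl_cons (by norm_num) (k203 M) (fl_cons (by norm_num) (k70 M) fl_nil))
    fs_nil) (by norm_num) c204

theorem k205 : Fk M W 12 f205 := ckC_fk (L := [[f203, f73]])
  (fs_cons (fl_cons (by norm_num) (k203 M) (fl_cons (by norm_num) (k73 M) fl_nil))
    fs_nil) (by norm_num) c205

theorem k206 : Fk M W 14 f206 := ckC_fk (L := [[f202, f65]])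
  (fs_cons (fl_cons (by norm_num) (k202 M) (fl_cons (by norm_num) (k65 M) fl_nil))
    fs_nil) (by norm_num) c206

theorem k207 : Fk M W 12 f207 := ckC_fk (L := [[f206, f78]])
  (fs_cons (fl_cons (by norm_num) (k206 M) (fl_cons (by norm_num) (k78 M) fl_nil))
    fs_nil) (by norm_num) c207

theorem k208 : Fk M W 14 f208 := ckC_fk (L := [[f201, f39]])
  (fs_cons (fl_cons (by norm_num) (k201 M) (fl_cons (by norm_num) (k39 M) fl_nil))
    fs_nil) (by norm_num) c208

theorem k209 : Fk M W 14 f209 := ckC_fk (L := [[f208, f53]])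
  (fs_cons (fl_cons (by norm_num) (k208 M) (fl_cons (by norm_num) (k53 M) fl_nil))
    fs_nil) (by norm_num) c209

theorem k210 : Fk M W 12 f210 := ckC_fk (L := [[f209, f78]])
  (fs_cons (fl_cons (by norm_num) (k209 M) (fl_cons (by norm_num) (k78 M) fl_nil))
    fs_nil) (by norm_num) c210

theorem k211 : Fk M W 12 f211 := ckC_fk (L := [[f209, f82]])
  (fs_cons (fl_cons (by norm_num) (k209 M) (fl_cons (by norm_num) (k82 M) fl_nil))
    fs_nil) (by norm_num) c211

theorem k212 : Fk M W 14 f212 := ckC_fk (L := [[f208, f56]])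
  (fs_cons (fl_cons (by norm_num) (k208 M) (fl_cons (by norm_num) (k56 M) fl_nil))
    fs_nil) (by norm_num) c212

theorem k213 : Fk M W 12 f213 := ckC_fk (L := [[f212, f70]])
  (fs_cons (fl_cons (by norm_num) (k212 M) (fl_cons (by norm_num) (k70 M) fl_nil))
    fs_nil) (by norm_num) c213

theorem k214 : Fk M W 12 f214 := ckC_fk (L := [[f212, f73]])
  (fs_cons (fl_cons (by norm_num) (k212 M) (fl_cons (by norm_num) (k73 M) fl_nil))
    fs_nil) (by norm_num) c214

theorem k215 : Fk M W 15 f215 := ckC_fk (L := [[f200, f32]])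
  (fs_cons (fl_cons (by norm_num) (k200 M) (fl_cons (by norm_num) (k32 M) fl_nil))
    fs_nil) (by norm_num) c215

theorem k216 : Fk M W 14 f216 := ckC_fk (L := [[f215, f44]])
  (fs_cons (fl_cons (by norm_num) (k215 M) (fl_cons (by norm_num) (k44 M) fl_nil))
    fs_nil) (by norm_num) c216

theorem k217 : Fk M W 14 f217 := ckC_fk (L := [[f216, f53]])
  (fs_cons (fl_cons (by norm_num) (k216 M) (fl_cons (by norm_num) (k53 M) fl_nil))
    fs_nil) (by norm_num) c217

theorem k218 : Fk M W 12 f218 := ckC_fk (L := [[f217, f78]])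
  (fs_cons (fl_cons (by norm_num) (k217 M) (fl_cons (by norm_num) (k78 M) fl_nil))
    fs_nil) (by norm_num) c218

theorem k219 : Fk M W 12 f219 := ckC_fk (L := [[f217, f82]])
  (fs_cons (fl_cons (by norm_num) (k217 M) (fl_cons (by norm_num) (k82 M) fl_nil))
    fs_nil) (by norm_num) c219

theorem k220 : Fk M W 14 f220 := ckC_fk (L := [[f216, f56]])
  (fs_cons (fl_cons (by norm_num) (k216 M) (fl_cons (by norm_num) (k56 M) fl_nil))
    fs_nil) (by norm_num) c220

theorem k221 : Fk M W 12 f221 := ckC_fk (L := [[f220, f70]])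
  (fs_cons (fl_cons (by norm_num) (k220 M) (fl_cons (by norm_num) (k70 M) fl_nil))
    fs_nil) (by norm_num) c221

theorem k222 : Fk M W 12 f222 := ckC_fk (L := [[f220, f73]])
  (fs_cons (fl_cons (by norm_num) (k220 M) (fl_cons (by norm_num) (k73 M) fl_nil))
    fs_nil) (by norm_num) c222

theorem k223 : Fk M W 14 f223 := ckC_fk (L := [[f215, f49]])
  (fs_cons (fl_cons (by norm_num) (k215 M) (fl_cons (by norm_num) (k49 M) fl_nil))
    fs_nil) (by norm_num) c223

theorem k224 : Fk M W 14 f224 := ckC_fk (L := [[f223, f61]])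
  (fs_cons (fl_cons (by norm_num) (k223 M) (fl_cons (by norm_num) (k61 M) fl_nil))
    fs_nil) (by norm_num) c224

theorem k225 : Fk M W 12 f225 := ckC_fk (L := [[f224, f70]])
  (fs_cons (fl_cons (by norm_num) (k224 M) (fl_cons (by norm_num) (k70 M) fl_nil))
    fs_nil) (by norm_num) c225

theorem k226 : Fk M W 12 f226 := ckC_fk (L := [[f224, f73]])
  (fs_cons (fl_cons (by norm_num) (k224 M) (fl_cons (by norm_num) (k73 M) fl_nil))
    fs_nil) (by norm_num) c226

theorem k227 : Fk M W 14 f227 := ckC_fk (L := [[f223, f66]])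
  (fs_cons (fl_cons (by norm_num) (k223 M) (fl_cons (by norm_num) (k66 M) fl_nil))
    fs_nil) (by norm_num) c227

theorem k228 : Fk M W 12 f228 := ckC_fk (L := [[f227, f78]])
  (fs_cons (fl_cons (by norm_num) (k227 M) (fl_cons (by norm_num) (k78 M) fl_nil))
    fs_nil) (by norm_num) c228

theorem k229 : Fk M W 12 f229 := ckC_fk (L := [[f227, f83]])
  (fs_cons (fl_cons (by norm_num) (k227 M) (fl_cons (by norm_num) (k83 M) fl_nil))
    fs_nil) (by norm_num) c229

theorem k255 : Fk M W 12 f255 := ckC_fk (L := [[f72, f69]])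
  (fs_cons (fl_cons (by norm_num) (k72 M) (fl_cons (by norm_num) (k69 M) fl_nil))
    fs_nil) (by norm_num) c255

theorem k257 : Fk M W 12 f257 := ckC_fk (L := [[f81, f77]])
  (fs_cons (fl_cons (by norm_num) (k81 M) (fl_cons (by norm_num) (k77 M) fl_nil))
    fs_nil) (by norm_num) c257

theorem k310 : Fk M W 12 f310 := ckC_fk (L := [[f161, f160]])
  (fs_cons (fl_cons (by norm_num) (k161 M) (fl_cons (by norm_num) (k160 M) fl_nil))
    fs_nil) (by norm_num) c310

theorem k311 : Fk M W 12 f311 := ckC_fk (L := [[f161, f162]])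
  (fs_cons (fl_cons (by norm_num) (k161 M) (fl_cons (by norm_num) (k162 M) fl_nil))
    fs_nil) (by norm_num) c311

theorem k312 : Fk M W 12 f312 := ckC_fk (L := [[f162, f161]])
  (fs_cons (fl_cons (by norm_num) (k162 M) (fl_cons (by norm_num) (k161 M) fl_nil))
    fs_nil) (by norm_num) c312

theorem k313 : Fk M W 12 f313 := ckC_fk (L := [[f312, f160]])
  (fs_cons (fl_cons (by norm_num) (k312 M) (fl_cons (by norm_num) (k160 M) fl_nil))
    fs_nil) (by norm_num) c313

theorem k314 : Fk M W 12 f314 := ckC_fk (L := [[f312, f162]])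
  (fs_cons (fl_cons (by norm_num) (k312 M) (fl_cons (by norm_num) (k162 M) fl_nil))
    fs_nil) (by norm_num) c314

theorem k315 : Fk M W 12 f315 := ckC_fk (L := [[f165, f164]])
  (fs_cons (fl_cons (by norm_num) (k165 M) (fl_cons (by norm_num) (k164 M) fl_nil))
    fs_nil) (by norm_num) c315

theorem k316 : Fk M W 12 f316 := ckC_fk (L := [[f165, f166]])
  (fs_cons (fl_cons (by norm_num) (k165 M) (fl_cons (by norm_num) (k166 M) fl_nil))
    fs_nil) (by norm_num) c316

theorem k317 : Fk M W 12 f317 := ckC_fk (L := [[f166, f165]])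
  (fs_cons (fl_cons (by norm_num) (k166 M) (fl_cons (by norm_num) (k165 M) fl_nil))
    fs_nil) (by norm_num) c317

theorem k318 : Fk M W 12 f318 := ckC_fk (L := [[f317, f164]])
  (fs_cons (fl_cons (by norm_num) (k317 M) (fl_cons (by norm_num) (k164 M) fl_nil))
    fs_nil) (by norm_num) c318

theorem k319 : Fk M W 12 f319 := ckC_fk (L := [[f317, f166]])
  (fs_cons (fl_cons (by norm_num) (k317 M) (fl_cons (by norm_num) (k166 M) fl_nil))
    fs_nil) (by norm_num) c319

/-- All tables. -/
def L : List (List Fc) := [[f0, f1, f2, f3, f4, f5, f6, f7, f8, f9, f10, f11, f12, f13, f14, f15],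
  [f16, f17, f18, f19, f20, f21, f22, f23, f24, f25, f26, f27, f28, f29, f30, f31],
  [f32, f33, f34, f35, f36, f37, f38, f39, f40, f41, f42, f43, f44, f45, f46, f47],
  [f48, f49, f50, f51, f52, f53, f54, f55, f56, f57, f58, f59, f60, f61, f62, f63],
  [f64, f65, f66, f67, f68, f69, f70, f71, f72, f73, f74, f75, f76, f77, f78, f79],
  [f80, f81, f82, f83, f84, f85, f86, f87, f88, f89, f90, f91, f92, f93, f94, f95],
  [f96, f97, f98, f99, f100, f101, f102, f103, f104, f105, f106, f107, f108, f109, f110, f111],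
  [f112, f113, f114, f115, f116, f117, f118, f119, f120, f121, f122, f123, f124, f125, f126, f127],
  [f128, f129, f130, f131, f132, f133, f134, f135, f136, f137, f138, f139, f140, f141, f142, f143],
  [f144, f145, f146, f147, f148, f149, f150, f151, f152, f153, f154, f155, f156, f157, f158, f159],
  [f160, f161, f162, f163, f164, f165, f166, f167, f168, f169, f170, f171, f172, f173, f174, f175],
  [f176, f177, f178, f179, f180, f181, f182, f183, f184, f185, f186, f187, f188, f189, f190, f191],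
  [f192, f193, f194, f195, f196, f197, f198, f199, f200, f201, f202, f203, f204, f205, f206, f207],
  [f208, f209, f210, f211, f212, f213, f214, f215, f216, f217, f218, f219, f220, f221, f222, f223],
  [f224, f225, f226, f227, f228, f229, f230, f231, f232, f233, f234, f235, f236, f237, f238, f239],
  [f240, f241, f242, f243, f244, f245, f246, f247, f248, f249, f250, f251, f252, f253, f254, f255],
  [f256, f257, f258, f259, f260, f261, f262, f263, f264, f265, f266, f267, f268, f269, f270, f271],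
  [f272, f273, f274, f275, f276, f277, f278, f279, f280, f281, f282, f283, f284, f285, f286, f287],
  [f288, f289, f290, f291, f292, f293, f294, f295, f296, f297, f298, f299, f300, f301, f302, f303],
  [f304, f305, f306, f307, f308, f309, f310, f311, f312, f313, f314, f315, f316, f317, f318, f319]]

/-- All tables are correct. -/
theorem fs : Fs M W 12 L :=
  (fs_cons (fl_cons (by norm_num) (k0 M) (fl_cons (by norm_num) (k1 M) (fl_cons (by norm_num) (k2 M) (fl_cons (by norm_num) (k3 M) (fl_cons (by norm_num) (k4 M) (fl_cons (by norm_num) (k5 M) (fl_cons (by norm_num) (k6 M) (fl_cons (by norm_num) (k7 M) (fl_cons (by norm_num) (k8 M) (fl_cons (by norm_num) (k9 M) (fl_cons (by norm_num) (k10 M) (fl_cons (by norm_num) (k11 M) (fl_cons (by norm_num) (k12 M) (fl_cons (by norm_num) (k13 M) (fl_cons (by norm_num) (k14 M) (fl_cons (by norm_num) (k15 M) fl_nil))))))))))))))))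
    (fs_cons (fl_cons (by norm_num) (k16 M) (fl_cons (by norm_num) (k17 M) (fl_cons (by norm_num) (k18 M) (fl_cons (by norm_num) (k19 M) (fl_cons (by norm_num) (k20 M) (fl_cons (by norm_num) (k21 M) (fl_cons (by norm_num) (k22 M) (fl_cons (by norm_num) (k23 M) (fl_cons (by norm_num) (k24 M) (fl_cons (by norm_num) (k25 M) (fl_cons (by norm_num) (k26 M) (fl_cons (by norm_num) (k27 M) (fl_cons (by norm_num) (k28 M) (fl_cons (by norm_num) (k29 M) (fl_cons (by norm_num) (k30 M) (fl_cons (by norm_num) (k31 M) fl_nil))))))))))))))))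
    (fs_cons (fl_cons (by norm_num) (k32 M) (fl_cons (by norm_num) (k33 M) (fl_cons (by norm_num) (k34 M) (fl_cons (by norm_num) (k35 M) (fl_cons (by norm_num) (k36 M) (fl_cons (by norm_num) (k37 M) (fl_cons (by norm_num) (k38 M) (fl_cons (by norm_num) (k39 M) (fl_cons (by norm_num) (k40 M) (fl_cons (by norm_num) (k41 M) (fl_cons (by norm_num) (k42 M) (fl_cons (by norm_num) (k43 M) (fl_cons (by norm_num) (k44 M) (fl_cons (by norm_num) (k45 M) (fl_cons (by norm_num) (k46 M) (fl_cons (by norm_num) (k47 M) fl_nil))))))))))))))))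
    (fs_cons (fl_cons (by norm_num) (k48 M) (fl_cons (by norm_num) (k49 M) (fl_cons (by norm_num) (k50 M) (fl_cons (by norm_num) (k51 M) (fl_cons (by norm_num) (k52 M) (fl_cons (by norm_num) (k53 M) (fl_cons (by norm_num) (k54 M) (fl_cons (by norm_num) (k55 M) (fl_cons (by norm_num) (k56 M) (fl_cons (by norm_num) (k57 M) (fl_cons (by norm_num) (k58 M) (fl_cons (by norm_num) (k59 M) (fl_cons (by norm_num) (k60 M) (fl_cons (by norm_num) (k61 M) (fl_cons (by norm_num) (k62 M) (fl_cons (by norm_num) (k63 M) fl_nil))))))))))))))))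
    (fs_cons (fl_cons (by norm_num) (k64 M) (fl_cons (by norm_num) (k65 M) (fl_cons (by norm_num) (k66 M) (fl_cons (by norm_num) (k67 M) (fl_cons (by norm_num) (k68 M) (fl_cons (by norm_num) (k69 M) (fl_cons (by norm_num) (k70 M) (fl_cons (by norm_num) (k71 M) (fl_cons (by norm_num) (k72 M) (fl_cons (by norm_num) (k73 M) (fl_cons (by norm_num) (k74 M) (fl_cons (by norm_num) (k75 M) (fl_cons (by norm_num) (k76 M) (fl_cons (by norm_num) (k77 M) (fl_cons (by norm_num) (k78 M) (fl_cons (by norm_num) (k79 M) fl_nil))))))))))))))))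
    (fs_cons (fl_cons (by norm_num) (k80 M) (fl_cons (by norm_num) (k81 M) (fl_cons (by norm_num) (k82 M) (fl_cons (by norm_num) (k83 M) (fl_cons (by norm_num) (k84 M) (fl_cons (by norm_num) (k85 M) (fl_cons (by norm_num) (k86 M) (fl_cons (by norm_num) (k87 M) (fl_cons (by norm_num) (k88 M) (fl_cons (by norm_num) (k89 M) (fl_cons (by norm_num) (k90 M) (fl_cons (by norm_num) (k91 M) (fl_cons (by norm_num) (k92 M) (fl_cons (by norm_num) (k93 M) (fl_cons (by norm_num) (k94 M) (fl_cons (by norm_num) (k95 M) fl_nil))))))))))))))))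
    (fs_cons (fl_cons (by norm_num) (k96 M) (fl_cons (by norm_num) (k97 M) (fl_cons (by norm_num) (k98 M) (fl_cons (by norm_num) (k99 M) (fl_cons (by norm_num) (k100 M) (fl_cons (by norm_num) (k101 M) (fl_cons (by norm_num) (k102 M) (fl_cons (by norm_num) (k103 M) (fl_cons (by norm_num) (k104 M) (fl_cons (by norm_num) (k105 M) (fl_cons (by norm_num) (k106 M) (fl_cons (by norm_num) (k107 M) (fl_cons (by norm_num) (k108 M) (fl_cons (by norm_num) (k109 M) (fl_cons (by norm_num) (k110 M) (fl_cons (by norm_num) (k111 M) fl_nil))))))))))))))))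
    (fs_cons (fl_cons (by norm_num) (k112 M) (fl_cons (by norm_num) (k113 M) (fl_cons (by norm_num) (k114 M) (fl_cons (by norm_num) (k115 M) (fl_cons (by norm_num) (k116 M) (fl_cons (by norm_num) (k117 M) (fl_cons (by norm_num) (k118 M) (fl_cons (by norm_num) (k119 M) (fl_cons (by norm_num) (k120 M) (fl_cons (by norm_num) (k121 M) (fl_cons (by norm_num) (k122 M) (fl_cons (by norm_num) (k123 M) (fl_cons (by norm_num) (k124 M) (fl_cons (by norm_num) (k125 M) (fl_cons (by norm_num) (k126 M) (fl_cons (by norm_num) (k127 M) fl_nil))))))))))))))))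
    (fs_cons (fl_cons (by norm_num) (k128 M) (fl_cons (by norm_num) (k129 M) (fl_cons (by norm_num) (k130 M) (fl_cons (by norm_num) (k131 M) (fl_cons (by norm_num) (k132 M) (fl_cons (by norm_num) (k133 M) (fl_cons (by norm_num) (k134 M) (fl_cons (by norm_num) (k135 M) (fl_cons (by norm_num) (k136 M) (fl_cons (by norm_num) (k137 M) (fl_cons (by norm_num) (k138 M) (fl_cons (by norm_num) (k139 M) (fl_cons (by norm_num) (k140 M) (fl_cons (by norm_num) (k141 M) (fl_cons (by norm_num) (k142 M) (fl_cons (by norm_num) (k143 M) fl_nil))))))))))))))))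
    (fs_cons (fl_cons (by norm_num) (k144 M) (fl_cons (by norm_num) (k145 M) (fl_cons (by norm_num) (k146 M) (fl_cons (by norm_num) (k147 M) (fl_cons (by norm_num) (k148 M) (fl_cons (by norm_num) (k149 M) (fl_cons (by norm_num) (k150 M) (fl_cons (by norm_num) (k151 M) (fl_cons (by norm_num) (k152 M) (fl_cons (by norm_num) (k153 M) (fl_cons (by norm_num) (k154 M) (fl_cons (by norm_num) (k155 M) (fl_cons (by norm_num) (k156 M) (fl_cons (by norm_num) (k157 M) (fl_cons (by norm_num) (k158 M) (fl_cons (by norm_num) (k159 M) fl_nil))))))))))))))))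
    (fs_cons (fl_cons (by norm_num) (k160 M) (fl_cons (by norm_num) (k161 M) (fl_cons (by norm_num) (k162 M) (fl_cons (by norm_num) (k163 M) (fl_cons (by norm_num) (k164 M) (fl_cons (by norm_num) (k165 M) (fl_cons (by norm_num) (k166 M) (fl_cons (by norm_num) (k167 M) (fl_cons (by norm_num) (k168 M) (fl_cons (by norm_num) (k169 M) (fl_cons (by norm_num) (k170 M) (fl_cons (by norm_num) (k171 M) (fl_cons (by norm_num) (k172 M) (fl_cons (by norm_num) (k173 M) (fl_cons (by norm_num) (k174 M) (fl_cons (by norm_num) (k175 M) fl_nil))))))))))))))))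
    (fs_cons (fl_cons (by norm_num) (k176 M) (fl_cons (by norm_num) (k177 M) (fl_cons (by norm_num) (k178 M) (fl_cons (by norm_num) (k179 M) (fl_cons (by norm_num) (k180 M) (fl_cons (by norm_num) (k181 M) (fl_cons (by norm_num) (k182 M) (fl_cons (by norm_num) (k183 M) (fl_cons (by norm_num) (k184 M) (fl_cons (by norm_num) (k185 M) (fl_cons (by norm_num) (k186 M) (fl_cons (by norm_num) (k187 M) (fl_cons (by norm_num) (k188 M) (fl_cons (by norm_num) (k189 M) (fl_cons (by norm_num) (k190 M) (fl_cons (by norm_num) (k191 M) fl_nil))))))))))))))))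
    (fs_cons (fl_cons (by norm_num) (k192 M) (fl_cons (by norm_num) (k193 M) (fl_cons (by norm_num) (k194 M) (fl_cons (by norm_num) (k195 M) (fl_cons (by norm_num) (k196 M) (fl_cons (by norm_num) (k197 M) (fl_cons (by norm_num) (k198 M) (fl_cons (by norm_num) (k199 M) (fl_cons (by norm_num) (k200 M) (fl_cons (by norm_num) (k201 M) (fl_cons (by norm_num) (k202 M) (fl_cons (by norm_num) (k203 M) (fl_cons (by norm_num) (k204 M) (fl_cons (by norm_num) (k205 M) (fl_cons (by norm_num) (k206 M) (fl_cons (by norm_num) (k207 M) fl_nil))))))))))))))))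
    (fs_cons (fl_cons (by norm_num) (k208 M) (fl_cons (by norm_num) (k209 M) (fl_cons (by norm_num) (k210 M) (fl_cons (by norm_num) (k211 M) (fl_cons (by norm_num) (k212 M) (fl_cons (by norm_num) (k213 M) (fl_cons (by norm_num) (k214 M) (fl_cons (by norm_num) (k215 M) (fl_cons (by norm_num) (k216 M) (fl_cons (by norm_num) (k217 M) (fl_cons (by norm_num) (k218 M) (fl_cons (by norm_num) (k219 M) (fl_cons (by norm_num) (k220 M) (fl_cons (by norm_num) (k221 M) (fl_cons (by norm_num) (k222 M) (fl_cons (by norm_num) (k223 M) fl_nil))))))))))))))))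
    (fs_cons (fl_cons (by norm_num) (k224 M) (fl_cons (by norm_num) (k225 M) (fl_cons (by norm_num) (k226 M) (fl_cons (by norm_num) (k227 M) (fl_cons (by norm_num) (k228 M) (fl_cons (by norm_num) (k229 M) (fl_cons (by norm_num) (k230 M) (fl_cons (by norm_num) (k231 M) (fl_cons (by norm_num) (k232 M) (fl_cons (by norm_num) (k233 M) (fl_cons (by norm_num) (k234 M) (fl_cons (by norm_num) (k235 M) (fl_cons (by norm_num) (k236 M) (fl_cons (by norm_num) (k237 M) (fl_cons (by norm_num) (k238 M) (fl_cons (by norm_num) (k239 M) fl_nil))))))))))))))))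
    (fs_cons (fl_cons (by norm_num) (k240 M) (fl_cons (by norm_num) (k241 M) (fl_cons (by norm_num) (k242 M) (fl_cons (by norm_num) (k243 M) (fl_cons (by norm_num) (k244 M) (fl_cons (by norm_num) (k245 M) (fl_cons (by norm_num) (k246 M) (fl_cons (by norm_num) (k247 M) (fl_cons (by norm_num) (k248 M) (fl_cons (by norm_num) (k249 M) (fl_cons (by norm_num) (k250 M) (fl_cons (by norm_num) (k251 M) (fl_cons (by norm_num) (k252 M) (fl_cons (by norm_num) (k253 M) (fl_cons (by norm_num) (k254 M) (fl_cons (by norm_num) (k255 M) fl_nil))))))))))))))))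
    (fs_cons (fl_cons (by norm_num) (k256 M) (fl_cons (by norm_num) (k257 M) (fl_cons (by norm_num) (k258 M) (fl_cons (by norm_num) (k259 M) (fl_cons (by norm_num) (k260 M) (fl_cons (by norm_num) (k261 M) (fl_cons (by norm_num) (k262 M) (fl_cons (by norm_num) (k263 M) (fl_cons (by norm_num) (k264 M) (fl_cons (by norm_num) (k265 M) (fl_cons (by norm_num) (k266 M) (fl_cons (by norm_num) (k267 M) (fl_cons (by norm_num) (k268 M) (fl_cons (by norm_num) (k269 M) (fl_cons (by norm_num) (k270 M) (fl_cons (by norm_num) (k271 M) fl_nil))))))))))))))))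
    (fs_cons (fl_cons (by norm_num) (k272 M) (fl_cons (by norm_num) (k273 M) (fl_cons (by norm_num) (k274 M) (fl_cons (by norm_num) (k275 M) (fl_cons (by norm_num) (k276 M) (fl_cons (by norm_num) (k277 M) (fl_cons (by norm_num) (k278 M) (fl_cons (by norm_num) (k279 M) (fl_cons (by norm_num) (k280 M) (fl_cons (by norm_num) (k281 M) (fl_cons (by norm_num) (k282 M) (fl_cons (by norm_num) (k283 M) (fl_cons (by norm_num) (k284 M) (fl_cons (by norm_num) (k285 M) (fl_cons (by norm_num) (k286 M) (fl_cons (by norm_num) (k287 M) fl_nil))))))))))))))))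
    (fs_cons (fl_cons (by norm_num) (k288 M) (fl_cons (by norm_num) (k289 M) (fl_cons (by norm_num) (k290 M) (fl_cons (by norm_num) (k291 M) (fl_cons (by norm_num) (k292 M) (fl_cons (by norm_num) (k293 M) (fl_cons (by norm_num) (k294 M) (fl_cons (by norm_num) (k295 M) (fl_cons (by norm_num) (k296 M) (fl_cons (by norm_num) (k297 M) (fl_cons (by norm_num) (k298 M) (fl_cons (by norm_num) (k299 M) (fl_cons (by norm_num) (k300 M) (fl_cons (by norm_num) (k301 M) (fl_cons (by norm_num) (k302 M) (fl_cons (by norm_num) (k303 M) fl_nil))))))))))))))))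
    (fs_cons (fl_cons (by norm_num) (k304 M) (fl_cons (by norm_num) (k305 M) (fl_cons (by norm_num) (k306 M) (fl_cons (by norm_num) (k307 M) (fl_cons (by norm_num) (k308 M) (fl_cons (by norm_num) (k309 M) (fl_cons (by norm_num) (k310 M) (fl_cons (by norm_num) (k311 M) (fl_cons (by norm_num) (k312 M) (fl_cons (by norm_num) (k313 M) (fl_cons (by norm_num) (k314 M) (fl_cons (by norm_num) (k315 M) (fl_cons (by norm_num) (k316 M) (fl_cons (by norm_num) (k317 M) (fl_cons (by norm_num) (k318 M) (fl_cons (by norm_num) (k319 M) fl_nil))))))))))))))))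
    fs_nil))))))))))))))))))))

end Pool.Agent.SWC93
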