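import Mathlib
import Pool.Agent.SWC93.G
import Pool.Agent.SWC93.Dat

/-!
# The closed batches
-/

set_option autoImplicit false

namespace Pool.Agent.SWC93

open Pool.Agent.SWL57

/-- The data of the batches. -/
noncomputable def cs : List Cb := (b0 :: bs).map (mkb xt L)

theorem z0 : ok0 W xt L bl b0 = true := by decide +kernel

theorem z1 : bs.all (okb W xt L bl) = true := by decide +kernel

end Pool.Agent.SWC93
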