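import Mathlib
import Pool.Agent.SWC93.Z

/-!
# Checks of the blocks
-/

set_option autoImplicit false

namespace Pool.Agent.SWC93

open Pool.Agent.SWL57

theorem q0 : cbk 0 14 196 cs = true := by decide +kernel

theorem q1 : cbk 1 11 121 cs = true := by decide +kernel

theorem q2 : cbk 2 5 25 cs = true := by decide +kernel

theorem q3 : cbk 3 37 1147 cs = true := by decide +kernel

theorem q4 : cbk 4 31 1147 cs = true := by decide +kernel

theorem q5 : cbk 5 31 961 cs = true := by decide +kernel

theorem q6 : cbk 6 31 961 cs = true := by decide +kernel

theorem q7 : cbk 7 37 1369 cs = true := by decide +kernel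

theorem q8 : cbk 8 37 1369 cs = true := by decide +kernel

end Pool.Agent.SWC93
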