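import Mathlib
import Pool.Agent.SWC93.Z

/-!
# Checks of the blocks
-/

set_option autoImplicit false

namespace Pool.Agent.SWC93

open Pool.Agent.SWL57

theorem q9 : cbk 9 31 961 cs = true := by decide +kernel

theorem q10 : cbk 10 37 1369 cs = true := by decide +kernel

theorem q11 : cbk 11 31 961 cs = true := by decide +kernel

theorem q12 : cbk 12 37 1369 cs = true := by decide +kernel

theorem q13 : cbk 13 37 1147 cs = true := by decide +kernel

theorem q14 : cbk 14 31 1147 cs = true := by decide +kernel

theorem q15 : cbk 15 37 1147 cs = true := by decide +kernel

theorem q16 : cbk 16 31 1147 cs = true := by decide +kernel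

end Pool.Agent.SWC93
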