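import Mathlib
import Pool.Agent.SWC93.Z0
import Pool.Agent.SWC93.Z1

/-!
# The closed relation
-/

set_option autoImplicit false

namespace Pool.Agent.SWC93

open Pool.Agent.SWL57 Pool.Agent.Jac70 Pool.Agent.SWW54

theorem blocks : ∀ m < bl.length, ∃ st n, 0 < st ∧ cbk m st n cs = true := by
  intro m hm
  have hm' : m < 17 := hm
  interval_cases m
  · exact ⟨14, 196, by norm_num, q0⟩
  · exact ⟨11, 121, by norm_num, q1⟩
  · exact ⟨5, 25, by norm_num, q2⟩
  · exact ⟨37, 1147, by norm_num, q3⟩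
  · exact ⟨31, 1147, by norm_num, q4⟩
  · exact ⟨31, 961, by norm_num, q5⟩
  · exact ⟨31, 961, by norm_num, q6⟩
  · exact ⟨37, 1369, by norm_num, q7⟩
  · exact ⟨37, 1369, by norm_num, q8⟩
  · exact ⟨31, 961, by norm_num, q9⟩
  · exact ⟨37, 1369, by norm_num, q10⟩
  · exact ⟨31, 961, by norm_num, q11⟩
  · exact ⟨37, 1369, by norm_num, q12⟩
  · exact ⟨37, 1147, by norm_num, q13⟩
  · exact ⟨31, 1147, by norm_num, q14⟩
  · exact ⟨37, 1147, by norm_num, q15⟩
  · exact ⟨31, 1147, by norm_num, q16⟩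

/-- **The closed relation.** -/
theorem closed {H : Type} [DecidableEq H] (h : AllR H) :
    sm (fun v => ev H (.E 0 :: (v ++ [.A 0]))) (xr ⟨1, 1, tg⟩) ∈ Dv (B := A H) 7 :=
  clo_main h hW h0 (n := 12) (by norm_num) (fs (pre h)) (fs (suf h)) bl xt b0 bs z0
    (fun b hb => List.all_eq_true.1 z1 b hb) blocks

end Pool.Agent.SWC93
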